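import Mathlib

set_option autoImplicit false

/-!
MP_8efaaa_nt, theorem G: a small solution of the conic `A X^2 = 2 B Y^2 + C Z^2` by pigeonhole
(the box is exactly large enough because the form is divisible by `8 A B C` on a lattice of index
`8 A B C`).
-/

namespace Pool.Agent.Work.MP_8efaaa_nt.G

open Finset

theorem sq_abs_le {x y : ℤ} {n : ℕ} (hx : 0 ≤ x) (hy : 0 ≤ y) (hx' : x ≤ (Nat.sqrt n : ℤ))
    (hy' : y ≤ (Nat.sqrt n : ℤ)) : (x - y) ^ 2 ≤ n := by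
  have h1 : |x - y| ≤ (Nat.sqrt n : ℤ) := by
    rw [abs_le]; constructor <;> linarith
  have h2 : (x - y) ^ 2 ≤ (Nat.sqrt n : ℤ) ^ 2 := by
    rw [← sq_abs]
    exact pow_le_pow_left₀ (abs_nonneg _) h1 2
  have h3 : (Nat.sqrt n : ℤ) ^ 2 ≤ n := by exact_mod_cast Nat.sqrt_le' n
  linarith

theorem thue_aux (A B C : ℕ) (hA : 0 < A) (hB : 0 < B) (hC : 0 < C) (α β γ : ℤ) :
    ∃ X Y Z : ℤ, (X, Y, Z) ≠ (0, 0, 0) ∧ X ^ 2 ≤ 8 * B * C ∧ Y ^ 2 ≤ 2 * A * C ∧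
      Z ^ 2 ≤ 4 * A * B ∧ (A : ℤ) ∣ 2 * B * Y - α * Z ∧ (B : ℤ) ∣ A * X - β * Z ∧
      (C : ℤ) ∣ A * X - γ * Y ∧ (4 : ℤ) ∣ X - Z ∧ (2 : ℤ) ∣ Y := by
  haveI : NeZero A := ⟨hA.ne'⟩
  haveI : NeZero B := ⟨hB.ne'⟩
  haveI : NeZero C := ⟨hC.ne'⟩
  set x0 := Nat.sqrt (8 * B * C) with hx0
  set y0 := Nat.sqrt (2 * A * C) with hy0
  set z0 := Nat.sqrt (4 * A * B) with hz0
  let F : ℕ × ℕ × ℕ → ZMod A × ZMod B × ZMod C × ZMod 4 × ZMod 2 := fun t =>
    (((2 * B * (t.2.1 : ℤ) - α * (t.2.2 : ℤ) : ℤ) : ZMod A),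
     ((A * (t.1 : ℤ) - β * (t.2.2 : ℤ) : ℤ) : ZMod B),
     ((A * (t.1 : ℤ) - γ * (t.2.1 : ℤ) : ℤ) : ZMod C),
     (((t.1 : ℤ) - (t.2.2 : ℤ) : ℤ) : ZMod 4), (((t.2.1 : ℤ) : ℤ) : ZMod 2))
  set S : Finset (ℕ × ℕ × ℕ) := range (x0 + 1) ×ˢ range (y0 + 1) ×ˢ range (z0 + 1) with hS
  have hcard : (Finset.univ : Finset (ZMod A × ZMod B × ZMod C × ZMod 4 × ZMod 2)).card
      < S.card := by
    rw [Finset.card_univ, Fintype.card_prod, Fintype.card_prod, Fintype.card_prod,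
      Fintype.card_prod, ZMod.card, ZMod.card, ZMod.card, ZMod.card, ZMod.card, hS,
      card_product, card_product, card_range, card_range, card_range]
    have h1 : 8 * B * C < (x0 + 1) * (x0 + 1) := Nat.lt_succ_sqrt _
    have h2 : 2 * A * C < (y0 + 1) * (y0 + 1) := Nat.lt_succ_sqrt _
    have h3 : 4 * A * B < (z0 + 1) * (z0 + 1) := Nat.lt_succ_sqrt _
    have h4 : (8 * B * C) * (2 * A * C) < ((x0 + 1) * (x0 + 1)) * ((y0 + 1) * (y0 + 1)) :=
      Nat.mul_lt_mul'' h1 h2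
    have h5 : ((8 * B * C) * (2 * A * C)) * (4 * A * B) <
        (((x0 + 1) * (x0 + 1)) * ((y0 + 1) * (y0 + 1))) * ((z0 + 1) * (z0 + 1)) :=
      Nat.mul_lt_mul'' h4 h3
    by_contra hcon
    push Not at hcon
    have h6 := Nat.mul_le_mul hcon hcon
    have e1 : (x0 + 1) * ((y0 + 1) * (z0 + 1)) * ((x0 + 1) * ((y0 + 1) * (z0 + 1)))
      = (((x0 + 1) * (x0 + 1)) * ((y0 + 1) * (y0 + 1))) * ((z0 + 1) * (z0 + 1)) := by ring
    have e2 : A * (B * (C * (4 * 2))) * (A * (B * (C * (4 * 2))))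
      = ((8 * B * C) * (2 * A * C)) * (4 * A * B) := by ring
    rw [e1, e2] at h6
    omega
  obtain ⟨s, hs, t, ht, hne, hF⟩ := Finset.exists_ne_map_eq_of_card_lt_of_maps_to (f := F)
    hcard (fun _ _ => Finset.mem_univ _)
  obtain ⟨x1, y1, z1⟩ := s
  obtain ⟨x2, y2, z2⟩ := t
  simp only [hS, mem_product, mem_range] at hs ht
  simp only [F, Prod.mk.injEq] at hF
  obtain ⟨f1, f2, f3, f4, f5⟩ := hF
  rw [ZMod.intCast_eq_intCast_iff_dvd_sub] at f1 f2 f3 f4 f5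
  refine ⟨(x1 : ℤ) - x2, (y1 : ℤ) - y2, (z1 : ℤ) - z2, ?_, ?_, ?_, ?_, ?_, ?_, ?_, ?_, ?_⟩
  · intro h
    apply hne
    simp only [Prod.mk.injEq] at h ⊢
    omega
  · have := sq_abs_le (n := 8 * B * C) (x := x1) (y := x2) (by positivity) (by positivity)
      (by exact_mod_cast (by omega : x1 ≤ x0)) (by exact_mod_cast (by omega : x2 ≤ x0))
    push_cast at this
    exact this
  · have := sq_abs_le (n := 2 * A * C) (x := y1) (y := y2) (by positivity) (by positivity)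
      (by exact_mod_cast (by omega : y1 ≤ y0)) (by exact_mod_cast (by omega : y2 ≤ y0))
    push_cast at this
    exact this
  · have := sq_abs_le (n := 4 * A * B) (x := z1) (y := z2) (by positivity) (by positivity)
      (by exact_mod_cast (by omega : z1 ≤ z0)) (by exact_mod_cast (by omega : z2 ≤ z0))
    push_cast at this
    exact this
  · obtain ⟨k, hk⟩ := f1
    exact ⟨-k, by linear_combination -hk⟩
  · obtain ⟨k, hk⟩ := f2
    exact ⟨-k, by linear_combination -hk⟩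
  · obtain ⟨k, hk⟩ := f3
    exact ⟨-k, by linear_combination -hk⟩
  · obtain ⟨k, hk⟩ := f4
    refine ⟨-k, ?_⟩
    push_cast at hk
    linear_combination -hk
  · obtain ⟨k, hk⟩ := f5
    refine ⟨-k, ?_⟩
    push_cast at hk
    linear_combination -hk

theorem two_mul_odd_ne_sq {y : ℤ} {m : ℕ} (hm : m % 2 = 1) : y ^ 2 ≠ 2 * (m : ℤ) := by
  intro h
  rcases Int.even_or_odd y with ⟨k, hk⟩ | ⟨k, hk⟩
  · subst hk
    have : 2 * (k * k) = (m : ℤ) := by linarith [h, (by ring : (k + k) ^ 2 = 4 * (k * k))]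
    omega
  · subst hk
    have : (2 * k + 1) ^ 2 = 2 * (2 * (k * k) + 2 * k) + 1 := by ring
    omega

theorem eight_mul_odd_ne_sq {y : ℤ} {m : ℕ} (hm : m % 2 = 1) : y ^ 2 ≠ 8 * (m : ℤ) := by
  intro h
  rcases Int.even_or_odd y with ⟨k, hk⟩ | ⟨k, hk⟩
  · subst hk
    apply two_mul_odd_ne_sq hm (y := k)
    linarith [h, (by ring : (k + k) ^ 2 = 4 * (k ^ 2))]
  · subst hk
    have : (2 * k + 1) ^ 2 = 2 * (2 * (k * k) + 2 * k) + 1 := by ring
    omega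

theorem thue (A B C : ℕ) (hA : 0 < A) (hB : 0 < B) (hC : 0 < C)
    (oA : A % 2 = 1) (oB : B % 2 = 1) (oC : C % 2 = 1)
    (cAB : Nat.Coprime A B) (cAC : Nat.Coprime A C) (cBC : Nat.Coprime B C)
    (h8 : (A * C) % 8 = 1)
    (α β γ : ℤ) (hα : (A : ℤ) ∣ α ^ 2 + 2 * B * C) (hβ : (B : ℤ) ∣ β ^ 2 - A * C)
    (hγ : (C : ℤ) ∣ γ ^ 2 - 2 * A * B) :
    ∃ X Y Z : ℤ, (X, Y, Z) ≠ (0, 0, 0) ∧ A * X ^ 2 = 2 * B * Y ^ 2 + C * Z ^ 2 ∧
      X ^ 2 ≤ 8 * B * C ∧ Y ^ 2 ≤ 2 * A * C := by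
  obtain ⟨X, Y, Z, hne, hX, hY, hZ, hdA, hdB, hdC, hd4, hd2⟩ := thue_aux A B C hA hB hC α β γ
  refine ⟨X, Y, Z, hne, ?_, hX, hY⟩
  set f : ℤ := A * X ^ 2 - 2 * B * Y ^ 2 - C * Z ^ 2 with hf
  have hAz : (0 : ℤ) < A := by exact_mod_cast hA
  have hBz : (0 : ℤ) < B := by exact_mod_cast hB
  have hCz : (0 : ℤ) < C := by exact_mod_cast hC
  -- divisibility
  have dA : (A : ℤ) ∣ f := by
    have h1 : (A : ℤ) ∣ (2 * B) * (2 * B * Y ^ 2 + C * Z ^ 2) := by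
      have e : (2 * B : ℤ) * (2 * B * Y ^ 2 + C * Z ^ 2)
        = (2 * B * Y - α * Z) * (2 * B * Y + α * Z) + (α ^ 2 + 2 * B * C) * Z ^ 2 := by ring
      rw [e]
      exact dvd_add (Dvd.dvd.mul_right hdA _) (Dvd.dvd.mul_right hα _)
    have hco : IsCoprime (A : ℤ) (2 * B) := by
      have : Nat.Coprime A (2 * B) := by
        apply Nat.Coprime.mul_right _ cAB
        exact Nat.coprime_two_right.mpr (Nat.odd_iff.mpr oA)
      have := Nat.isCoprime_iff_coprime.mpr this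
      push_cast at this
      exact this
    have h2 := hco.dvd_of_dvd_mul_left h1
    have e : f = A * X ^ 2 - (2 * B * Y ^ 2 + C * Z ^ 2) := by rw [hf]; ring
    rw [e]
    exact dvd_sub (dvd_mul_right _ _) h2
  have dB : (B : ℤ) ∣ f := by
    have h1 : (B : ℤ) ∣ (A : ℤ) * (A * X ^ 2 - C * Z ^ 2) := by
      have e : (A : ℤ) * (A * X ^ 2 - C * Z ^ 2)
        = (A * X - β * Z) * (A * X + β * Z) + (β ^ 2 - A * C) * Z ^ 2 := by ring
      rw [e]
      exact dvd_add (Dvd.dvd.mul_right hdB _) (Dvd.dvd.mul_right hβ _)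
    have hco : IsCoprime (B : ℤ) (A : ℤ) := Nat.isCoprime_iff_coprime.mpr cAB.symm
    have h2 := hco.dvd_of_dvd_mul_left h1
    have e : f = (A * X ^ 2 - C * Z ^ 2) - B * (2 * Y ^ 2) := by rw [hf]; ring
    rw [e]
    exact dvd_sub h2 (dvd_mul_right _ _)
  have dC : (C : ℤ) ∣ f := by
    have h1 : (C : ℤ) ∣ (A : ℤ) * (A * X ^ 2 - 2 * B * Y ^ 2) := by
      have e : (A : ℤ) * (A * X ^ 2 - 2 * B * Y ^ 2)
        = (A * X - γ * Y) * (A * X + γ * Y) + (γ ^ 2 - 2 * A * B) * Y ^ 2 := by ring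
      rw [e]
      exact dvd_add (Dvd.dvd.mul_right hdC _) (Dvd.dvd.mul_right hγ _)
    have hco : IsCoprime (C : ℤ) (A : ℤ) := Nat.isCoprime_iff_coprime.mpr cAC.symm
    have h2 := hco.dvd_of_dvd_mul_left h1
    have e : f = (A * X ^ 2 - 2 * B * Y ^ 2) - C * Z ^ 2 := by rw [hf]
    rw [e]
    exact dvd_sub h2 (dvd_mul_right _ _)
  have d8 : (8 : ℤ) ∣ f := by
    obtain ⟨y, rfl⟩ := hd2
    obtain ⟨k, hk⟩ := hd4
    have hX' : X = Z + 4 * k := by linarith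
    have hAC : ∃ j : ℤ, (A : ℤ) * C = 8 * j + 1 := ⟨((A * C / 8 : ℕ) : ℤ), by
      have := Nat.div_add_mod (A * C) 8
      rw [h8] at this
      exact_mod_cast this.symm⟩
    obtain ⟨j, hj⟩ := hAC
    have hAA : ∃ i : ℤ, (A : ℤ) * A = 8 * i + 1 := by
      have hodd : Odd (A : ℤ) := by
        have : Odd A := Nat.odd_iff.mpr oA
        exact_mod_cast this
      obtain ⟨a, ha⟩ := hodd
      rcases Int.even_or_odd a with ⟨b, hb⟩ | ⟨b, hb⟩
      · exact ⟨2 * b * b + b, by rw [ha, hb]; ring⟩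
      · exact ⟨2 * b * b + 3 * b + 1, by rw [ha, hb]; ring⟩
    obtain ⟨i, hi⟩ := hAA
    have hpar : ∃ l : ℤ, k * (Z + 2 * k) * 8 = 8 * l := ⟨k * (Z + 2 * k), by ring⟩
    have h1 : (8 : ℤ) ∣ (A : ℤ) * f := by
      refine ⟨i * X ^ 2 - j * Z ^ 2 + k * (Z + 2 * k) - A * B * y ^ 2, ?_⟩
      have e : (A : ℤ) * f = (A * A) * X ^ 2 - (A * C) * Z ^ 2 - 8 * (A * B * y ^ 2) := by
        rw [hf]; ring
      rw [e, hi, hj, hX']
      ring
    have hco : IsCoprime (8 : ℤ) (A : ℤ) := by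
      have : Nat.Coprime 8 A := by
        have h2 : Nat.Coprime (2 ^ 3) A := Nat.Coprime.pow_left 3
          (Nat.coprime_two_left.mpr (Nat.odd_iff.mpr oA))
        simpa using h2
      have := Nat.isCoprime_iff_coprime.mpr this
      push_cast at this
      exact this
    exact hco.dvd_of_dvd_mul_left h1
  have dall : (8 * (A * B * C) : ℤ) ∣ f := by
    have cABz : IsCoprime (A : ℤ) (B : ℤ) := Nat.isCoprime_iff_coprime.mpr cAB
    have cACz : IsCoprime (A : ℤ) (C : ℤ) := Nat.isCoprime_iff_coprime.mpr cAC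
    have cBCz : IsCoprime (B : ℤ) (C : ℤ) := Nat.isCoprime_iff_coprime.mpr cBC
    have h1 : (A * B : ℤ) ∣ f := cABz.mul_dvd dA dB
    have h2 : (A * B * C : ℤ) ∣ f := (IsCoprime.mul_left cACz cBCz).mul_dvd h1 dC
    have hco : IsCoprime (8 : ℤ) (A * B * C : ℤ) := by
      have : Nat.Coprime 8 (A * B * C) := by
        have hodd : Odd (A * B * C) := by
          have a1 : Odd A := Nat.odd_iff.mpr oA
          have a2 : Odd B := Nat.odd_iff.mpr oB
          have a3 : Odd C := Nat.odd_iff.mpr oC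
          exact (a1.mul a2).mul a3
        have h2 : Nat.Coprime (2 ^ 3) (A * B * C) := Nat.Coprime.pow_left 3
          (Nat.coprime_two_left.mpr hodd)
        simpa using h2
      have := Nat.isCoprime_iff_coprime.mpr this
      push_cast at this
      exact this
    exact hco.mul_dvd d8 h2
  -- size
  have hBCo : (B * C) % 2 = 1 := by rw [Nat.mul_mod, oB, oC]
  have hACo : (A * C) % 2 = 1 := by rw [Nat.mul_mod, oA, oC]
  have u1 : f ≤ 8 * (A * B * C) := by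
    have : (A : ℤ) * X ^ 2 ≤ A * (8 * B * C) := mul_le_mul_of_nonneg_left hX hAz.le
    have p1 : (0 : ℤ) ≤ 2 * B * Y ^ 2 := by positivity
    have p2 : (0 : ℤ) ≤ C * Z ^ 2 := by positivity
    rw [hf]; nlinarith
  have u2 : -(8 * (A * B * C)) ≤ f := by
    have a1 : (2 * B : ℤ) * Y ^ 2 ≤ 2 * B * (2 * A * C) :=
      mul_le_mul_of_nonneg_left hY (by positivity)
    have a2 : (C : ℤ) * Z ^ 2 ≤ C * (4 * A * B) := mul_le_mul_of_nonneg_left hZ hCz.le
    have p1 : (0 : ℤ) ≤ A * X ^ 2 := by positivity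
    rw [hf]; nlinarith
  have n1 : f ≠ 8 * (A * B * C) := by
    intro h
    have p1 : (0 : ℤ) ≤ 2 * B * Y ^ 2 := by positivity
    have p2 : (0 : ℤ) ≤ C * Z ^ 2 := by positivity
    have h1 : (A : ℤ) * (8 * B * C) ≤ A * X ^ 2 := by
      rw [hf] at h; nlinarith
    have h2 : (8 * B * C : ℤ) ≤ X ^ 2 := le_of_mul_le_mul_left h1 hAz
    have h3 : X ^ 2 = 8 * ((B * C : ℕ) : ℤ) := by push_cast; linarith
    exact eight_mul_odd_ne_sq hBCo h3
  have n2 : f ≠ -(8 * (A * B * C)) := by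
    intro h
    have a2 : (C : ℤ) * Z ^ 2 ≤ C * (4 * A * B) := mul_le_mul_of_nonneg_left hZ hCz.le
    have p1 : (0 : ℤ) ≤ A * X ^ 2 := by positivity
    have h1 : (2 * B : ℤ) * (2 * A * C) ≤ 2 * B * Y ^ 2 := by
      rw [hf] at h; nlinarith
    have h2 : (2 * A * C : ℤ) ≤ Y ^ 2 := le_of_mul_le_mul_left h1 (by positivity)
    have h3 : Y ^ 2 = 2 * ((A * C : ℕ) : ℤ) := by push_cast; linarith
    exact two_mul_odd_ne_sq hACo h3
  have hf0 : f = 0 := by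
    obtain ⟨t, ht⟩ := dall
    have hpos : (0 : ℤ) < 8 * (A * B * C) := by positivity
    set M : ℤ := 8 * (A * B * C) with hM
    have t1 : t < 1 := by
      by_contra hcon
      push Not at hcon
      have : M ≤ f := by rw [ht]; nlinarith
      exact n1 (le_antisymm u1 this)
    have t2 : -1 < t := by
      by_contra hcon
      push Not at hcon
      have : f ≤ -M := by rw [ht]; nlinarith
      exact n2 (le_antisymm this u2)
    have : t = 0 := by omega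
    rw [ht, this, mul_zero]
  linarith

end Pool.Agent.Work.MP_8efaaa_nt.G
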