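import Mathlib
import Pool.Agent.Work.MP_8efaaa_nt.Defs
import Pool.Agent.Work.MP_8efaaa_nt.Basic
import Pool.Agent.Work.MP_8efaaa_nt.G.Conic

set_option autoImplicit false

/-!
MP_8efaaa_nt, theorem G: from the small solution of the conic to a congruent number.
-/

namespace Pool.Agent.Work.MP_8efaaa_nt.G

theorem squarefree_mul_sq {m z w : ℕ} (hm : Squarefree m) (hz : z ≠ 0) (h : m * z ^ 2 = w ^ 2) :
    m = 1 := by
  have h1 : z ^ 2 ∣ w ^ 2 := ⟨m, by rw [← h]; ring⟩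
  have h2 : z ∣ w := (Nat.pow_dvd_pow_iff (by norm_num)).mp h1
  obtain ⟨t, rfl⟩ := h2
  have h3 : m = t * t := by
    have h4 : z ^ 2 * m = z ^ 2 * (t * t) := by linarith [h, (by ring : (z * t) ^ 2 = z ^ 2 * (t * t))]
    exact Nat.eq_of_mul_eq_mul_left (by positivity) h4
  have h5 : IsUnit t := hm t ⟨1, by rw [h3]; ring⟩
  rw [Nat.isUnit_iff] at h5
  rw [h3, h5]

theorem odd_sq_mod8 {x : ℕ} (hx : x % 2 = 1) : x ^ 2 % 8 = 1 := by
  obtain ⟨k, rfl⟩ : ∃ k, x = 2 * k + 1 := ⟨x / 2, by omega⟩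
  rcases Nat.even_or_odd k with ⟨j, rfl⟩ | ⟨j, rfl⟩ <;> ring_nf <;> omega

/-- the primitive solution -/
theorem exists_prim_solution (A B C : ℕ) (hA : 0 < A) (hB : 0 < B) (hC : 0 < C)
    (oA : A % 2 = 1) (oB : B % 2 = 1) (oC : C % 2 = 1)
    (sA : Squarefree A) (sB : Squarefree B) (sC : Squarefree C)
    (cAB : Nat.Coprime A B) (cAC : Nat.Coprime A C) (cBC : Nat.Coprime B C)
    (h8 : (A * C) % 8 = 1) (h1 : A * C ≠ 1)
    (α β γ : ℤ) (hα : (A : ℤ) ∣ α ^ 2 + 2 * B * C) (hβ : (B : ℤ) ∣ β ^ 2 - A * C)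
    (hγ : (C : ℤ) ∣ γ ^ 2 - 2 * A * B) :
    ∃ x y z : ℕ, 0 < x ∧ 0 < y ∧ 0 < z ∧ A * x ^ 2 = 2 * B * y ^ 2 + C * z ^ 2 ∧
      x ^ 2 ≤ 8 * B * C ∧ y ^ 2 ≤ 2 * A * C ∧ (∀ p : ℕ, p.Prime → p ∣ x → p ∣ y → ¬ p ∣ z) := by
  obtain ⟨X, Y, Z, hne, he, hX, hY⟩ := thue A B C hA hB hC oA oB oC cAB cAC cBC h8 α β γ hα hβ hγ
  -- naturals
  have heN : A * X.natAbs ^ 2 = 2 * B * Y.natAbs ^ 2 + C * Z.natAbs ^ 2 := by
    have : (A : ℤ) * (X.natAbs : ℤ) ^ 2 = 2 * B * (Y.natAbs : ℤ) ^ 2 + C * (Z.natAbs : ℤ) ^ 2 := by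
      rw [Int.natAbs_sq, Int.natAbs_sq, Int.natAbs_sq]; exact he
    exact_mod_cast this
  have hXN : X.natAbs ^ 2 ≤ 8 * B * C := by
    have : (X.natAbs : ℤ) ^ 2 ≤ 8 * B * C := by rw [Int.natAbs_sq]; exact hX
    exact_mod_cast this
  have hYN : Y.natAbs ^ 2 ≤ 2 * A * C := by
    have : (Y.natAbs : ℤ) ^ 2 ≤ 2 * A * C := by rw [Int.natAbs_sq]; exact hY
    exact_mod_cast this
  set x := X.natAbs with hx
  set y := Y.natAbs with hy
  set z := Z.natAbs with hz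
  have hx0 : x ≠ 0 := by
    intro h0
    rw [h0] at heN
    have e1 : 2 * B * y ^ 2 = 0 := by
      have : A * 0 ^ 2 = 0 := by ring
      omega
    have e2 : C * z ^ 2 = 0 := by
      have : A * 0 ^ 2 = 0 := by ring
      omega
    have hy0 : y = 0 := by
      by_contra hyn
      have : 0 < 2 * B * y ^ 2 := by positivity
      omega
    have hz0 : z = 0 := by
      by_contra hzn
      have : 0 < C * z ^ 2 := by positivity
      omega
    apply hne
    rw [Int.natAbs_eq_zero.mp h0, Int.natAbs_eq_zero.mp hy0, Int.natAbs_eq_zero.mp hz0]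
  have hy0 : y ≠ 0 := by
    intro h0
    rw [h0] at heN
    have e1 : (A * C) * z ^ 2 = (A * x) ^ 2 := by
      have : A * (A * x ^ 2) = A * (C * z ^ 2) := by rw [heN]; ring
      calc (A * C) * z ^ 2 = A * (C * z ^ 2) := by ring
        _ = A * (A * x ^ 2) := this.symm
        _ = (A * x) ^ 2 := by ring
    have hz0 : z ≠ 0 := by
      intro hz0
      rw [hz0] at e1
      have : 0 < (A * x) ^ 2 := by positivity
      have : (A * C) * 0 ^ 2 = 0 := by ring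
      omega
    exact h1 (squarefree_mul_sq ((Nat.squarefree_mul cAC).mpr ⟨sA, sC⟩) hz0 e1)
  have s2 : Squarefree (2 * (A * B)) := by
    have hodd : Odd (A * B) := (Nat.odd_iff.mpr oA).mul (Nat.odd_iff.mpr oB)
    rw [Nat.squarefree_mul (Nat.coprime_two_left.mpr hodd)]
    exact ⟨Nat.prime_two.prime.squarefree, (Nat.squarefree_mul cAB).mpr ⟨sA, sB⟩⟩
  have hz0 : z ≠ 0 := by
    intro h0
    rw [h0] at heN
    have e1 : (2 * (A * B)) * y ^ 2 = (A * x) ^ 2 := by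
      calc (2 * (A * B)) * y ^ 2 = A * (2 * B * y ^ 2 + C * 0 ^ 2) := by ring
        _ = A * (A * x ^ 2) := by rw [heN]
        _ = (A * x) ^ 2 := by ring
    have := squarefree_mul_sq s2 hy0 e1
    omega
  -- make primitive
  set g := Nat.gcd x (Nat.gcd y z) with hg
  have hg0 : 0 < g := Nat.gcd_pos_of_pos_left _ (Nat.pos_of_ne_zero hx0)
  obtain ⟨x', hx'⟩ : g ∣ x := Nat.gcd_dvd_left _ _
  obtain ⟨y', hy'⟩ : g ∣ y := (Nat.gcd_dvd_right _ _).trans (Nat.gcd_dvd_left _ _)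
  obtain ⟨z', hz'⟩ : g ∣ z := (Nat.gcd_dvd_right _ _).trans (Nat.gcd_dvd_right _ _)
  refine ⟨x', y', z', ?_, ?_, ?_, ?_, ?_, ?_, ?_⟩
  · apply Nat.pos_of_ne_zero; rintro rfl; exact hx0 (by rw [hx']; ring)
  · apply Nat.pos_of_ne_zero; rintro rfl; exact hy0 (by rw [hy']; ring)
  · apply Nat.pos_of_ne_zero; rintro rfl; exact hz0 (by rw [hz']; ring)
  · have : g ^ 2 * (A * x' ^ 2) = g ^ 2 * (2 * B * y' ^ 2 + C * z' ^ 2) := by
      calc g ^ 2 * (A * x' ^ 2) = A * (g * x') ^ 2 := by ring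
        _ = A * x ^ 2 := by rw [← hx']
        _ = 2 * B * y ^ 2 + C * z ^ 2 := heN
        _ = 2 * B * (g * y') ^ 2 + C * (g * z') ^ 2 := by rw [← hy', ← hz']
        _ = g ^ 2 * (2 * B * y' ^ 2 + C * z' ^ 2) := by ring
    exact Nat.eq_of_mul_eq_mul_left (by positivity) this
  · refine le_trans ?_ hXN
    apply Nat.pow_le_pow_left
    rw [hx']; exact Nat.le_mul_of_pos_left _ hg0
  · refine le_trans ?_ hYN
    apply Nat.pow_le_pow_left
    rw [hy']; exact Nat.le_mul_of_pos_left _ hg0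
  · intro p hp hpx hpy hpz
    have h3 : g * p ∣ g := by
      rw [hg]
      apply Nat.dvd_gcd
      · rw [← hg, hx']; exact mul_dvd_mul_left _ hpx
      · apply Nat.dvd_gcd
        · rw [← hg, hy']; exact mul_dvd_mul_left _ hpy
        · rw [← hg, hz']; exact mul_dvd_mul_left _ hpz
    have h4 := Nat.le_of_dvd hg0 h3
    have := hp.two_le
    nlinarith

theorem prime_step {A s t p : ℕ} (hp : p.Prime) (sA : Squarefree A) (hpA : p ∣ A)
    (h : p ^ 2 ∣ A * s ^ 2) (ht : t = s) : p ∣ t := by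
  subst ht
  obtain ⟨A1, rfl⟩ := hpA
  have h1 : p ∣ A1 * t ^ 2 := by
    have : p * p ∣ p * (A1 * t ^ 2) := by
      convert h using 1 <;> ring
    exact (Nat.mul_dvd_mul_iff_left hp.pos).mp this
  rcases hp.dvd_mul.mp h1 with h2 | h2
  · exfalso
    have : IsUnit p := sA p (mul_dvd_mul_left p h2)
    exact hp.one_lt.ne' (Nat.isUnit_iff.mp this)
  · exact hp.dvd_of_dvd_pow h2

theorem conic_number (A B C : ℕ) (hA : 0 < A) (hB : 0 < B) (hC : 0 < C)
    (oA : A % 2 = 1) (oB : B % 2 = 1) (oC : C % 2 = 1)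
    (sA : Squarefree A) (sB : Squarefree B) (sC : Squarefree C)
    (cAB : Nat.Coprime A B) (cAC : Nat.Coprime A C) (cBC : Nat.Coprime B C)
    (h8 : (A * C) % 8 = 1) (h1 : A * C ≠ 1)
    (α β γ : ℤ) (hα : (A : ℤ) ∣ α ^ 2 + 2 * B * C) (hβ : (B : ℤ) ∣ β ^ 2 - A * C)
    (hγ : (C : ℤ) ∣ γ ^ 2 - 2 * A * B) :
    ∃ n : ℕ, Squarefree n ∧ Nat.Coprime (2 * (A * B)) n ∧ n % 8 = 1 ∧
      n ≤ 12 * A * B * C ^ 2 ∧ IsCongruent (2 * (A * B) * n) := by
  obtain ⟨x, y, z, hx, hy, hz, he, hxb, hyb, hprim⟩ := exists_prim_solution A B C hA hB hC oA oB oC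
    sA sB sC cAB cAC cBC h8 h1 α β γ hα hβ hγ
  -- parity
  have hxo : x % 2 = 1 := by
    by_contra hcon
    have hx2 : 2 ∣ x := by omega
    have hCz : 2 ∣ C * z ^ 2 := by
      have h3 : 2 ∣ A * x ^ 2 := Dvd.dvd.mul_left (dvd_pow hx2 (by norm_num)) _
      have h4 : 2 ∣ 2 * B * y ^ 2 := ⟨B * y ^ 2, by ring⟩
      rw [he] at h3
      exact (Nat.dvd_add_right h4).mp h3
    have hz2 : 2 ∣ z := by
      rcases Nat.prime_two.dvd_mul.mp hCz with h5 | h5
      · omega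
      · exact Nat.prime_two.dvd_of_dvd_pow h5
    have hBy : 2 ∣ B * y ^ 2 := by
      obtain ⟨x1, rfl⟩ := hx2
      obtain ⟨z1, rfl⟩ := hz2
      have h6 : 2 * (B * y ^ 2) = 2 * (2 * (A * x1 ^ 2)) - 2 * (2 * (C * z1 ^ 2)) := by
        have : A * (2 * x1) ^ 2 = 2 * (2 * (A * x1 ^ 2)) := by ring
        have : C * (2 * z1) ^ 2 = 2 * (2 * (C * z1 ^ 2)) := by ring
        have : 2 * B * y ^ 2 = 2 * (B * y ^ 2) := by ring
        omega
      omega
    have hy2 : 2 ∣ y := by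
      rcases Nat.prime_two.dvd_mul.mp hBy with h5 | h5
      · omega
      · exact Nat.prime_two.dvd_of_dvd_pow h5
    exact hprim 2 Nat.prime_two hx2 hy2 hz2
  have hzo : z % 2 = 1 := by
    by_contra hcon
    have hz2 : 2 ∣ z := by omega
    have h3 : 2 ∣ A * x ^ 2 := by
      rw [he]
      exact dvd_add ⟨B * y ^ 2, by ring⟩ (Dvd.dvd.mul_left (dvd_pow hz2 (by norm_num)) _)
    rcases Nat.prime_two.dvd_mul.mp h3 with h5 | h5
    · omega
    · have := Nat.prime_two.dvd_of_dvd_pow h5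
      omega
  have hx8 := odd_sq_mod8 hxo
  have hz8 := odd_sq_mod8 hzo
  have hyo : y % 2 = 0 := by
    by_contra hcon
    have hy8 := odd_sq_mod8 (show y % 2 = 1 by omega)
    -- mod 8 : A = 2 B + C with A C = 1
    have hm : (A % 8) % 8 = (2 * (B % 8) + (C % 8)) % 8 := by
      have h3 : (A * x ^ 2) % 8 = (2 * B * y ^ 2 + C * z ^ 2) % 8 := by rw [he]
      have h4 : (A * x ^ 2) % 8 = A % 8 := by rw [Nat.mul_mod, hx8]; omega
      have h5 : (2 * B * y ^ 2) % 8 = (2 * B) % 8 := by rw [Nat.mul_mod, hy8]; omega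
      have h6 : (C * z ^ 2) % 8 = C % 8 := by rw [Nat.mul_mod, hz8]; omega
      omega
    have h7 : ((A % 8) * (C % 8)) % 8 = 1 := by rw [← Nat.mul_mod]; exact h8
    have a1 : A % 8 < 8 := Nat.mod_lt _ (by norm_num)
    have a2 : B % 8 < 8 := Nat.mod_lt _ (by norm_num)
    have a3 : C % 8 < 8 := Nat.mod_lt _ (by norm_num)
    have a4 : (B % 8) % 2 = 1 := by omega
    revert hm h7 a1 a2 a3 a4
    generalize A % 8 = a
    generalize B % 8 = b
    generalize C % 8 = c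
    intro hm h7 a1 a2 a3 a4
    interval_cases a <;> interval_cases c <;> omega
  obtain ⟨y1, hy1⟩ : 2 ∣ y := by omega
  set w := A * x ^ 2 + 2 * B * y ^ 2 with hw
  have hw0 : 0 < w := by positivity
  have hCw8 : (C * w) % 8 = 1 := by
    have e : C * w = (A * C) * x ^ 2 + 8 * (B * C * y1 ^ 2) := by
      rw [hw, hy1]; ring
    rw [e, Nat.add_mul_mod_self_left, Nat.mul_mod, h8, hx8]
  obtain ⟨n, s, hns, hsq⟩ := Nat.sq_mul_squarefree (C * w)
  have hn0 : 0 < n := Nat.pos_of_ne_zero hsq.ne_zero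
  have hs0 : 0 < s := by
    apply Nat.pos_of_ne_zero; rintro rfl
    have : 0 < C * w := by positivity
    have h3 : (0 : ℕ) ^ 2 * n = 0 := by ring
    omega
  have hso : s % 2 = 1 := by
    by_contra hcon
    obtain ⟨s1, rfl⟩ : 2 ∣ s := by omega
    have : (2 * s1) ^ 2 * n = 2 * (2 * s1 ^ 2 * n) := by ring
    omega
  have hn8 : n % 8 = 1 := by
    have h3 := odd_sq_mod8 hso
    have h4 : (s ^ 2 * n) % 8 = n % 8 := by rw [Nat.mul_mod, h3]; omega
    rw [hns] at h4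
    omega
  refine ⟨n, hsq, ?_, hn8, ?_, ?_⟩
  · -- coprimality
    have hnd : n ∣ C * w := ⟨s ^ 2, by rw [← hns]; ring⟩
    apply Nat.Coprime.coprime_dvd_right hnd
    apply Nat.Coprime.mul_left
    · rw [Nat.coprime_two_left, Nat.odd_iff]; omega
    apply Nat.Coprime.mul_left
    · apply Nat.Coprime.mul_right cAC
      apply Nat.Coprime.symm
      apply Nat.coprime_of_dvd
      intro p hp hpw hpA
      have hp2 : p ≠ 2 := by rintro rfl; omega
      have hpB : ¬ p ∣ B := fun h => hp.one_lt.ne' (Nat.eq_one_of_dvd_coprimes cAB hpA h)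
      have hpC : ¬ p ∣ C := fun h => hp.one_lt.ne' (Nat.eq_one_of_dvd_coprimes cAC hpA h)
      have h3 : p ∣ 2 * B * y ^ 2 := by
        rw [hw] at hpw
        exact (Nat.dvd_add_right (Dvd.dvd.mul_right hpA _)).mp hpw
      have hpy : p ∣ y := by
        rcases hp.dvd_mul.mp h3 with h4 | h4
        · rcases hp.dvd_mul.mp h4 with h5 | h5
          · exact absurd ((Nat.prime_dvd_prime_iff_eq hp Nat.prime_two).mp h5) hp2
          · exact absurd h5 hpB
        · exact hp.dvd_of_dvd_pow h4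
      have hpz : p ∣ z := by
        have h4 : p ∣ A * x ^ 2 := Dvd.dvd.mul_right hpA _
        rw [he] at h4
        have h5 := (Nat.dvd_add_right h3).mp h4
        rcases hp.dvd_mul.mp h5 with h6 | h6
        · exact absurd h6 hpC
        · exact hp.dvd_of_dvd_pow h6
      have hpx : p ∣ x := by
        apply prime_step hp sA hpA (s := x) _ rfl
        rw [he]
        exact dvd_add (Dvd.dvd.mul_left (pow_dvd_pow_of_dvd hpy 2) _)
          (Dvd.dvd.mul_left (pow_dvd_pow_of_dvd hpz 2) _)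
      exact hprim p hp hpx hpy hpz
    · apply Nat.Coprime.mul_right cBC
      apply Nat.Coprime.symm
      apply Nat.coprime_of_dvd
      intro p hp hpw hpB
      have hp2 : p ≠ 2 := by rintro rfl; omega
      have hpA : ¬ p ∣ A := fun h => hp.one_lt.ne' (Nat.eq_one_of_dvd_coprimes cAB h hpB)
      have hpC : ¬ p ∣ C := fun h => hp.one_lt.ne' (Nat.eq_one_of_dvd_coprimes cBC hpB h)
      have h2By : p ∣ 2 * B * y ^ 2 := Dvd.dvd.mul_right (Dvd.dvd.mul_left hpB _) _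
      have h3 : p ∣ A * x ^ 2 := by
        rw [hw] at hpw
        exact (Nat.dvd_add_left h2By).mp hpw
      have hpx : p ∣ x := by
        rcases hp.dvd_mul.mp h3 with h4 | h4
        · exact absurd h4 hpA
        · exact hp.dvd_of_dvd_pow h4
      have hpz : p ∣ z := by
        have h4 := h3
        rw [he] at h4
        have h5 := (Nat.dvd_add_right h2By).mp h4
        rcases hp.dvd_mul.mp h5 with h6 | h6
        · exact absurd h6 hpC
        · exact hp.dvd_of_dvd_pow h6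
      have hpy : p ∣ y := by
        apply prime_step hp sB hpB (s := y) _ rfl
        have h4 : p ^ 2 ∣ 2 * B * y ^ 2 + C * z ^ 2 := by
          rw [← he]; exact Dvd.dvd.mul_left (pow_dvd_pow_of_dvd hpx 2) _
        have h5 : p ^ 2 ∣ 2 * B * y ^ 2 :=
          (Nat.dvd_add_left (Dvd.dvd.mul_left (pow_dvd_pow_of_dvd hpz 2) _)).mp h4
        have h6 : Nat.Coprime (p ^ 2) 2 :=
          Nat.Coprime.pow_left 2 ((Nat.coprime_primes hp Nat.prime_two).mpr hp2)
        have h7 : p ^ 2 ∣ 2 * (B * y ^ 2) := by rwa [← mul_assoc]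
        exact h6.dvd_of_dvd_mul_left h7
      exact hprim p hp hpx hpy hpz
  · -- size
    have h3 : n ≤ C * w := by
      rw [← hns]
      exact Nat.le_mul_of_pos_left _ (by positivity)
    have h4 : w ≤ 12 * A * B * C := by
      have a1 : A * x ^ 2 ≤ A * (8 * B * C) := Nat.mul_le_mul_left _ hxb
      have a2 : 2 * B * y ^ 2 ≤ 2 * B * (2 * A * C) := Nat.mul_le_mul_left _ hyb
      have a3 : A * (8 * B * C) + 2 * B * (2 * A * C) = 12 * A * B * C := by ring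
      omega
    calc n ≤ C * w := h3
      _ ≤ C * (12 * A * B * C) := Nat.mul_le_mul_left _ h4
      _ = 12 * A * B * C ^ 2 := by ring
  · -- congruent
    refine isCongruent_of_area (m := ((A * x ^ 2 : ℕ) : ℤ)) (n := ((2 * B * y ^ 2 : ℕ) : ℤ))
      (w := ((x * y * z * s : ℕ) : ℤ)) ?_ ?_ ?_
    · positivity
    · have : 0 < x * y * z * s := by positivity
      exact_mod_cast this.ne'
    · have e1 : ((A * x ^ 2 : ℕ) : ℤ) - ((2 * B * y ^ 2 : ℕ) : ℤ) = (C : ℤ) * (z : ℤ) ^ 2 := by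
        have : ((A * x ^ 2 : ℕ) : ℤ) = ((2 * B * y ^ 2 + C * z ^ 2 : ℕ) : ℤ) := by rw [he]
        rw [this]; push_cast; ring
      have e2 : (C : ℤ) * (((A * x ^ 2 : ℕ) : ℤ) + ((2 * B * y ^ 2 : ℕ) : ℤ))
          = (s : ℤ) ^ 2 * n := by
        have : ((s ^ 2 * n : ℕ) : ℤ) = ((C * w : ℕ) : ℤ) := by rw [hns]
        rw [hw] at this
        push_cast at this ⊢
        linarith
      have e3 : ((A * x ^ 2 : ℕ) : ℤ) * ((2 * B * y ^ 2 : ℕ) : ℤ) *
          (((A * x ^ 2 : ℕ) : ℤ) ^ 2 - ((2 * B * y ^ 2 : ℕ) : ℤ) ^ 2)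
          = ((A * x ^ 2 : ℕ) : ℤ) * ((2 * B * y ^ 2 : ℕ) : ℤ) * (z : ℤ) ^ 2 *
            ((C : ℤ) * (((A * x ^ 2 : ℕ) : ℤ) + ((2 * B * y ^ 2 : ℕ) : ℤ))) := by
        have : (((A * x ^ 2 : ℕ) : ℤ) ^ 2 - ((2 * B * y ^ 2 : ℕ) : ℤ) ^ 2)
          = (((A * x ^ 2 : ℕ) : ℤ) - ((2 * B * y ^ 2 : ℕ) : ℤ)) *
            (((A * x ^ 2 : ℕ) : ℤ) + ((2 * B * y ^ 2 : ℕ) : ℤ)) := by ring
        rw [this, e1]; ring
      rw [e3, e2]
      push_cast
      ring

end Pool.Agent.Work.MP_8efaaa_nt.G
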