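import Mathlib

set_option autoImplicit false

/-!
MP_8efaaa_nt, theorem G: Legendre sieve in an arithmetic progression and the bound
`B ^ omega(a) <= K a ^ eps`.
-/

namespace Pool.Agent.Work.MP_8efaaa_nt.G

open Finset

/-- number of `j < J` with `c + q j` not divisible by any member of `P` -/
def cnt (P : Finset ℕ) (q c J : ℕ) : ℕ :=
  ((range J).filter (fun j => ∀ p ∈ P, ¬ p ∣ c + q * j)).card

theorem exists_root {p q : ℕ} (hp : p.Prime) (hq : ¬ p ∣ q) (c : ℕ) :
    ∃ j0, j0 < p ∧ ∀ j, p ∣ c + q * j ↔ j % p = j0 := by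
  haveI : Fact p.Prime := ⟨hp⟩
  have hq' : (q : ZMod p) ≠ 0 := by
    intro h; exact hq ((ZMod.natCast_eq_zero_iff q p).mp h)
  set z : ZMod p := -(c : ZMod p) * (q : ZMod p)⁻¹ with hz
  refine ⟨z.val, ZMod.val_lt z, fun j => ?_⟩
  rw [← ZMod.natCast_eq_zero_iff]
  push_cast
  constructor
  · intro h
    have h1 : (j : ZMod p) = z := by
      rw [hz]
      field_simp
      linear_combination h
    rw [← h1, ZMod.val_natCast]
  · intro h
    have h1 : (j : ZMod p) = z := by
      have : ((j % p : ℕ) : ZMod p) = ((z.val : ℕ) : ZMod p) := by rw [h]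
      rw [ZMod.natCast_mod] at this
      rw [this, ZMod.natCast_zmod_val]
    rw [h1, hz]
    field_simp
    ring

theorem cnt_insert {P : Finset ℕ} {p q : ℕ} (hp : p.Prime) (hpP : p ∉ P) (hq : ¬ p ∣ q)
    (c J : ℕ) : ∃ c' J' : ℕ, |(J' : ℝ) - J / p| ≤ 1 ∧
      cnt (insert p P) q c J + cnt P (q * p) c' J' = cnt P q c J := by
  obtain ⟨j0, hj0, hj⟩ := exists_root hp hq c
  have hp0 : 0 < p := hp.pos
  refine ⟨c + q * j0, (J - j0 + (p - 1)) / p, ?_, ?_⟩
  · have hpr : (0 : ℝ) < p := by exact_mod_cast hp0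
    set J' := (J - j0 + (p - 1)) / p with hJ'
    have h1 : J' * p ≤ J - j0 + (p - 1) := Nat.div_mul_le_self _ _
    have h2 : J - j0 + (p - 1) < (J' + 1) * p := by
      rw [hJ']
      have := Nat.lt_div_mul_add hp0 (a := J - j0 + (p - 1))
      linarith
    have h3 : J' * p + 1 ≤ J + p := by omega
    have h4 : J + p < (J' + 1) * p + p := by
      have : J ≤ J - j0 + j0 := by omega
      omega
    have h3' : (J' : ℝ) * p + 1 ≤ J + p := by exact_mod_cast h3
    have h4' : (J : ℝ) + p < (J' + 1) * p + p := by exact_mod_cast h4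
    rw [abs_le]
    constructor
    · rw [neg_le_sub_iff_le_add, div_le_iff₀ hpr]
      nlinarith
    · rw [sub_le_iff_le_add, ← sub_le_iff_le_add', le_div_iff₀ hpr]
      nlinarith
  · unfold cnt
    have e1 : ((range J).filter (fun j => ∀ p' ∈ P, ¬ p' ∣ c + q * j)).card
        = (((range J).filter (fun j => ∀ p' ∈ P, ¬ p' ∣ c + q * j)).filter
            (fun j => ¬ p ∣ c + q * j)).card
          + (((range J).filter (fun j => ∀ p' ∈ P, ¬ p' ∣ c + q * j)).filter
            (fun j => p ∣ c + q * j)).card := by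
      rw [add_comm]
      exact (Finset.card_filter_add_card_filter_not _).symm
    rw [e1]
    congr 1
    · congr 1
      ext j
      simp only [mem_filter, mem_range, mem_insert, forall_eq_or_imp]
      tauto
    · refine Finset.card_bij (fun i _ => j0 + p * i) ?_ ?_ ?_
      · intro i hi
        simp only [mem_filter, mem_range] at hi ⊢
        obtain ⟨hi1, hi2⟩ := hi
        have hi3 : p * i < J - j0 := by
          have h5 : (i + 1) * p ≤ J - j0 + (p - 1) := by
            have := (Nat.le_div_iff_mul_le hp0).mp (Nat.succ_le_of_lt hi1)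
            simpa using this
          have h6 : (i + 1) * p = p * i + p := by ring
          omega
        refine ⟨⟨by omega, ?_⟩, ?_⟩
        · intro p' hp'
          have := hi2 p' hp'
          rwa [show c + q * j0 + q * p * i = c + q * (j0 + p * i) by ring] at this
        · rw [hj, Nat.add_mul_mod_self_left, Nat.mod_eq_of_lt hj0]
      · intro i _ i' _ h
        have : p * i = p * i' := by simpa using h
        exact Nat.eq_of_mul_eq_mul_left hp0 this
      · intro j hjm
        simp only [mem_filter, mem_range] at hjm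
        obtain ⟨⟨hj1, hj2⟩, hj3⟩ := hjm
        rw [hj] at hj3
        refine ⟨j / p, ?_, ?_⟩
        · have hdm := Nat.div_add_mod j p
          rw [hj3] at hdm
          simp only [mem_filter, mem_range]
          constructor
          · rw [Nat.lt_div_iff_mul_lt hp0]
            have : j / p * p = p * (j / p) := by ring
            omega
          · intro p' hp'
            have := hj2 p' hp'
            rwa [show c + q * j0 + q * p * (j / p) = c + q * (p * (j / p) + j0) by ring, hdm]
        · have hdm := Nat.div_add_mod j p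
          rw [hj3] at hdm
          show j0 + p * (j / p) = j
          omega

theorem cnt_bound (P : Finset ℕ) : (∀ p ∈ P, p.Prime) → ∀ q c J : ℕ, (∀ p ∈ P, ¬ p ∣ q) →
    |(cnt P q c J : ℝ) - J * ∏ p ∈ P, (1 - 1 / (p : ℝ))| ≤ 2 ^ P.card - 1 := by
  induction P using Finset.induction_on with
  | empty =>
    intro _ q c J _
    simp [cnt]
  | insert p P hpP ih =>
    intro hP q c J hq
    have hp : p.Prime := hP p (mem_insert_self _ _)
    have hP' : ∀ p' ∈ P, p'.Prime := fun p' h => hP p' (mem_insert_of_mem h)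
    have hq' : ∀ p' ∈ P, ¬ p' ∣ q := fun p' h => hq p' (mem_insert_of_mem h)
    obtain ⟨c', J', hJ', he⟩ := cnt_insert (P := P) hp hpP (hq p (mem_insert_self _ _)) c J
    have hq2 : ∀ p' ∈ P, ¬ p' ∣ q * p := by
      intro p' h hd
      rcases (hP' p' h).dvd_mul.mp hd with h1 | h1
      · exact hq' p' h h1
      · have := (Nat.prime_dvd_prime_iff_eq (hP' p' h) hp).mp h1
        exact hpP (this ▸ h)
    have i1 := ih hP' q c J hq'
    have i2 := ih hP' (q * p) c' J' hq2
    rw [prod_insert hpP, card_insert_of_notMem hpP]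
    set prd : ℝ := ∏ p ∈ P, (1 - 1 / (p : ℝ)) with hprd
    have hpr0 : 0 ≤ prd := by
      apply Finset.prod_nonneg
      intro x hx
      have : (1 : ℝ) ≤ x := by exact_mod_cast (hP' x hx).one_le
      have : 1 / (x : ℝ) ≤ 1 := by rw [div_le_one (by linarith)]; exact this
      linarith
    have hpr1 : prd ≤ 1 := by
      apply Finset.prod_le_one
      · intro x hx
        have : (1 : ℝ) ≤ x := by exact_mod_cast (hP' x hx).one_le
        have : 1 / (x : ℝ) ≤ 1 := by rw [div_le_one (by linarith)]; exact this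
        linarith
      · intro x _
        have : 0 ≤ 1 / (x : ℝ) := by positivity
        linarith
    have he' : (cnt (insert p P) q c J : ℝ) = cnt P q c J - cnt P (q * p) c' J' := by
      rw [← he]; push_cast; ring
    have hd : (cnt (insert p P) q c J : ℝ) - J * ((1 - 1 / (p : ℝ)) * prd)
        = ((cnt P q c J : ℝ) - J * prd) - ((cnt P (q * p) c' J' : ℝ) - J' * prd)
          - ((J' : ℝ) - J / p) * prd := by
      rw [he']; ring
    rw [hd]
    have h3 : |((J' : ℝ) - J / p) * prd| ≤ 1 := by
      rw [abs_mul, abs_of_nonneg hpr0]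
      calc |(J' : ℝ) - J / p| * prd ≤ 1 * 1 := by
            apply mul_le_mul hJ' hpr1 hpr0 (by norm_num)
        _ = 1 := by norm_num
    have h4 := abs_sub (((cnt P q c J : ℝ) - J * prd) - ((cnt P (q * p) c' J' : ℝ) - J' * prd))
      (((J' : ℝ) - J / p) * prd)
    have h5 := abs_sub ((cnt P q c J : ℝ) - J * prd) ((cnt P (q * p) c' J' : ℝ) - J' * prd)
    rw [pow_succ]
    linarith

/-- Among `3 ^ |P|` consecutive terms of a progression coprime to the odd primes of `P` there is
one divisible by no prime of `P`. -/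
theorem exists_coprime_term (P : Finset ℕ) (hP : ∀ p ∈ P, p.Prime) (hP2 : ∀ p ∈ P, p ≠ 2)
    (q c : ℕ) (hq : ∀ p ∈ P, ¬ p ∣ q) :
    ∃ j, j < 3 ^ P.card ∧ ∀ p ∈ P, ¬ p ∣ c + q * j := by
  have hb := cnt_bound P hP q c (3 ^ P.card) hq
  have hprod : ((2 : ℝ) / 3) ^ P.card ≤ ∏ p ∈ P, (1 - 1 / (p : ℝ)) := by
    rw [← Finset.prod_const]
    apply Finset.prod_le_prod
    · intro _ _; norm_num
    · intro p hp
      have h3 : 3 ≤ p := by
        have := (hP p hp).two_le
        have := hP2 p hp
        omega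
      have h3' : (3 : ℝ) ≤ p := by exact_mod_cast h3
      have : 1 / (p : ℝ) ≤ 1 / 3 := one_div_le_one_div_of_le (by norm_num) h3'
      linarith
  have h1 : (2 : ℝ) ^ P.card ≤ ((3 ^ P.card : ℕ) : ℝ) * ∏ p ∈ P, (1 - 1 / (p : ℝ)) := by
    calc (2 : ℝ) ^ P.card = (3 : ℝ) ^ P.card * (2 / 3) ^ P.card := by
          rw [← mul_pow]; norm_num
      _ ≤ ((3 ^ P.card : ℕ) : ℝ) * ∏ p ∈ P, (1 - 1 / (p : ℝ)) := by
          push_cast
          apply mul_le_mul_of_nonneg_left hprod (by positivity)
  have h2 : (0 : ℝ) < cnt P q c (3 ^ P.card) := by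
    have := (abs_le.mp hb).1
    linarith
  have h3 : 0 < cnt P q c (3 ^ P.card) := by exact_mod_cast h2
  unfold cnt at h3
  rw [Finset.card_pos] at h3
  obtain ⟨j, hj⟩ := h3
  simp only [mem_filter, mem_range] at hj
  exact ⟨j, hj.1, hj.2⟩

/-- `B ^ omega(a) ≤ K a ^ ε`. -/
theorem pow_omega_le (B : ℕ) (hB : 1 ≤ B) (ε : ℝ) (hε : 0 < ε) :
    ∃ K : ℝ, 1 ≤ K ∧ ∀ a : ℕ, 0 < a → (B : ℝ) ^ a.primeFactors.card ≤ K * (a : ℝ) ^ ε := by
  have hB1 : (1 : ℝ) ≤ B := by exact_mod_cast hB
  obtain ⟨X, hX⟩ := exists_nat_ge ((B : ℝ) ^ (1 / ε))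
  refine ⟨(B : ℝ) ^ X, one_le_pow₀ hB1, fun a ha => ?_⟩
  have hstep : ∀ p ∈ a.primeFactors, (B : ℝ) ≤ (if p < X then (B : ℝ) else 1) * (p : ℝ) ^ ε := by
    intro p hp
    have hp1 : (1 : ℝ) ≤ p := by exact_mod_cast (Nat.prime_of_mem_primeFactors hp).one_le
    have hp2 : (1 : ℝ) ≤ (p : ℝ) ^ ε := Real.one_le_rpow hp1 hε.le
    split_ifs with h
    · nlinarith
    · have hXp : (X : ℝ) ≤ p := by exact_mod_cast (not_lt.mp h)
      have : (B : ℝ) ≤ (p : ℝ) ^ ε := by
        calc (B : ℝ) = ((B : ℝ) ^ (1 / ε)) ^ ε := by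
              rw [← Real.rpow_mul (by linarith)]
              rw [one_div, inv_mul_cancel₀ hε.ne', Real.rpow_one]
          _ ≤ (p : ℝ) ^ ε := by
              apply Real.rpow_le_rpow (by positivity) (hX.trans hXp) hε.le
      linarith
  calc (B : ℝ) ^ a.primeFactors.card = ∏ _p ∈ a.primeFactors, (B : ℝ) := by
        rw [Finset.prod_const]
    _ ≤ ∏ p ∈ a.primeFactors, ((if p < X then (B : ℝ) else 1) * (p : ℝ) ^ ε) :=
        Finset.prod_le_prod (fun _ _ => by positivity) hstep
    _ = (∏ p ∈ a.primeFactors, (if p < X then (B : ℝ) else 1)) *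
          ∏ p ∈ a.primeFactors, (p : ℝ) ^ ε := Finset.prod_mul_distrib
    _ ≤ (B : ℝ) ^ X * (a : ℝ) ^ ε := by
        apply mul_le_mul
        · rw [← Finset.prod_filter, Finset.prod_const]
          apply pow_le_pow_right₀ hB1
          calc (a.primeFactors.filter (fun p => p < X)).card ≤ (range X).card := by
                apply Finset.card_le_card
                intro p hp
                simp only [mem_filter] at hp
                simpa using hp.2
            _ = X := card_range X
        · rw [Real.finsetProd_rpow _ _ (fun i _ => by positivity)]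
          apply Real.rpow_le_rpow
          · positivity
          · have h1 := Nat.le_of_dvd ha (Nat.prod_primeFactors_dvd a)
            calc (∏ i ∈ a.primeFactors, (i : ℝ)) = ((∏ i ∈ a.primeFactors, i : ℕ) : ℝ) := by
                  push_cast; rfl
              _ ≤ a := by exact_mod_cast h1
          · exact hε.le
        · positivity
        · positivity

end Pool.Agent.Work.MP_8efaaa_nt.G
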