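import Mathlib

set_option autoImplicit false

/-!
MP_8efaaa_nt, theorem G: pigeonhole (genus theory as linear algebra over F_2): a set of primes
with trivial class mod 8 and trivial symbols, giving a locally solvable conic.
-/

namespace Pool.Agent.Work.MP_8efaaa_nt.G

open Finset

/-- the local symbol at `p` of the prime `q`, for the modulus `N = 2 N'` -/
def hsym (N' p q : ℕ) : ℤ :=
  if q = p then jacobiSym (-(2 * ((N' / p : ℕ) : ℤ))) p else jacobiSym (q : ℤ) p

def usgn (x : ℤ) : ℤˣ := if x = 1 then 1 else -1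

theorem usgn_val {x : ℤ} (h : x = 1 ∨ x = -1) : ((usgn x : ℤˣ) : ℤ) = x := by
  rcases h with h | h <;> simp [usgn, h]

open Classical in
/-- mod 8 unit -/
noncomputable def u8 (q : ℕ) : (ZMod 8)ˣ := if h : IsUnit ((q : ℕ) : ZMod 8) then h.unit else 1

theorem u8_val {q : ℕ} (h : q % 2 = 1) : ((u8 q : (ZMod 8)ˣ) : ZMod 8) = (q : ZMod 8) := by
  have hu : IsUnit ((q : ℕ) : ZMod 8) := by
    rw [ZMod.isUnit_iff_coprime]
    have h2 : Nat.Coprime q (2 ^ 3) := Nat.Coprime.pow_right 3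
      (Nat.coprime_two_right.mpr (Nat.odd_iff.mpr h))
    simpa using h2
  unfold u8
  rw [dif_pos hu]
  exact hu.unit_spec

abbrev GG (N' : ℕ) : Type := ({p // p ∈ N'.primeFactors} → ℤˣ) × (ZMod 8)ˣ

noncomputable def gv (N' : ℕ) (q : ℕ) : GG N' := (fun p => usgn (hsym N' p.1 q), u8 q)

theorem GG_sq {N' : ℕ} (x : GG N') : x * x = 1 := by
  obtain ⟨x1, x2⟩ := x
  have h2 : ∀ u : (ZMod 8)ˣ, u * u = 1 := by decide
  have h1 : ∀ u : ℤˣ, u * u = 1 := by decide
  ext1
  · funext p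
    exact h1 (x1 p)
  · exact h2 x2

theorem prod_symm {G : Type*} [CommGroup G] (hG : ∀ x : G, x * x = 1) (g : ℕ → G)
    (S T : Finset ℕ) : ∏ q ∈ symmDiff S T, g q = (∏ q ∈ S, g q) * ∏ q ∈ T, g q := by
  have e1 : (∏ q ∈ S, g q) = (∏ q ∈ S \ T, g q) * ∏ q ∈ S ∩ T, g q := by
    rw [← Finset.prod_inter_mul_prod_sdiff S T g, mul_comm]
  have e2 : (∏ q ∈ T, g q) = (∏ q ∈ T \ S, g q) * ∏ q ∈ S ∩ T, g q := by
    rw [← Finset.prod_inter_mul_prod_sdiff T S g, mul_comm, Finset.inter_comm]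
  have e3 : symmDiff S T = (S \ T) ∪ (T \ S) := rfl
  rw [e3, Finset.prod_union, e1, e2]
  · have := hG (∏ q ∈ S ∩ T, g q)
    calc (∏ q ∈ S \ T, g q) * ∏ q ∈ T \ S, g q
        = (∏ q ∈ S \ T, g q) * (∏ q ∈ T \ S, g q) * 1 := by rw [mul_one]
      _ = (∏ q ∈ S \ T, g q) * (∏ q ∈ T \ S, g q) *
          ((∏ q ∈ S ∩ T, g q) * ∏ q ∈ S ∩ T, g q) := by rw [this]
      _ = _ := by
          rw [mul_mul_mul_comm]
  · exact disjoint_sdiff_sdiff

/-- The pigeonhole. -/
theorem exists_set (N' l1 l2 l3 : ℕ) (h12 : l1 ≠ l2) (h13 : l1 ≠ l3) (h23 : l2 ≠ l3)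
    (p1 : ¬ l1 ∈ N'.primeFactors) (p2 : ¬ l2 ∈ N'.primeFactors) (p3 : ¬ l3 ∈ N'.primeFactors) :
    ∃ T : Finset ℕ, T ⊆ N'.primeFactors ∪ {l1, l2, l3} ∧ T.Nonempty ∧ ∏ q ∈ T, gv N' q = 1 := by
  classical
  set P : Finset ℕ := N'.primeFactors ∪ {l1, l2, l3} with hP
  have hPc : P.card = N'.primeFactors.card + 3 := by
    rw [hP, Finset.card_union_of_disjoint]
    · congr 1
      rw [Finset.card_insert_of_notMem, Finset.card_insert_of_notMem, Finset.card_singleton]
      · simpa using h23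
      · simp [h12, h13]
    · rw [Finset.disjoint_right]
      intro x hx
      simp only [mem_insert, mem_singleton] at hx
      rcases hx with rfl | rfl | rfl <;> assumption
  have hG : Fintype.card (GG N') = 2 ^ N'.primeFactors.card * 4 := by
    rw [Fintype.card_prod, Fintype.card_fun, Fintype.card_units_int, ZMod.card_units_eq_totient,
      Fintype.card_coe]
    congr 1
  have hlt : (Finset.univ : Finset (GG N')).card < P.powerset.card := by
    rw [Finset.card_univ, hG, Finset.card_powerset, hPc, pow_add]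
    have : 0 < 2 ^ N'.primeFactors.card := by positivity
    omega
  obtain ⟨S, hS, T, hT, hne, hST⟩ := Finset.exists_ne_map_eq_of_card_lt_of_maps_to
    (f := fun T : Finset ℕ => ∏ q ∈ T, gv N' q) hlt (fun _ _ => Finset.mem_univ _)
  rw [Finset.mem_powerset] at hS hT
  refine ⟨symmDiff S T, ?_, ?_, ?_⟩
  · intro x hx
    rw [Finset.mem_symmDiff] at hx
    rcases hx with ⟨h, _⟩ | ⟨h, _⟩
    · exact hS h
    · exact hT h
  · rw [Finset.nonempty_iff_ne_empty]
    intro h
    apply hne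
    exact symmDiff_eq_bot.mp (by simpa using h)
  · rw [prod_symm GG_sq, hST, GG_sq]

/-- Chinese remainder for squares. -/
theorem exists_sq_mod (n : ℕ) (x : ℤ) (hn : Squarefree n)
    (h : ∀ p : ℕ, p.Prime → p ∣ n → IsSquare ((x : ℤ) : ZMod p)) : ∃ α : ℤ, (n : ℤ) ∣ α ^ 2 - x := by
  induction n using Nat.strong_induction_on with
  | _ n ih =>
    rcases Nat.lt_or_ge n 2 with h2 | h2
    · have hn0 : n ≠ 0 := hn.ne_zero
      have : n = 1 := by omega
      subst this
      exact ⟨0, by simp⟩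
    · set p := n.minFac with hp
      have hpp : p.Prime := Nat.minFac_prime (by omega)
      obtain ⟨m, hm⟩ : p ∣ n := Nat.minFac_dvd n
      have hcop : Nat.Coprime p m := by
        apply (Nat.Prime.coprime_iff_not_dvd hpp).mpr
        intro hd
        have : IsUnit p := hn p (by rw [hm]; exact mul_dvd_mul_left p hd)
        exact hpp.one_lt.ne' (Nat.isUnit_iff.mp this)
      have hm0 : 0 < m := by
        apply Nat.pos_of_ne_zero; rintro rfl
        exact hn.ne_zero (by rw [hm, mul_zero])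
      have hmn : m < n := by
        rw [hm]
        exact (Nat.lt_mul_iff_one_lt_left hm0).mpr hpp.one_lt
      have hms : Squarefree m := hn.squarefree_of_dvd ⟨p, by rw [hm]; ring⟩
      obtain ⟨a2, ha2⟩ := ih m hmn hms (fun q hq hqm => h q hq (by
        rw [hm]; exact Dvd.dvd.mul_left hqm p))
      haveI : Fact p.Prime := ⟨hpp⟩
      obtain ⟨r, hr⟩ := h p hpp (Nat.minFac_dvd n)
      obtain ⟨a1, ha1⟩ : ∃ a1 : ℤ, ((a1 : ℤ) : ZMod p) = r := ⟨(r.val : ℤ), by
        push_cast; exact ZMod.natCast_zmod_val r⟩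
      have ha1' : (p : ℤ) ∣ a1 ^ 2 - x := by
        rw [← ZMod.intCast_zmod_eq_zero_iff_dvd] <;> try infer_instance
        push_cast
        rw [ha1, hr]; ring
      have hcz : IsCoprime (p : ℤ) (m : ℤ) := Nat.isCoprime_iff_coprime.mpr hcop
      obtain ⟨u, v, huv⟩ := hcz
      refine ⟨a2 * (u * p) + a1 * (v * m), ?_⟩
      rw [hm]
      push_cast
      apply IsCoprime.mul_dvd (Nat.isCoprime_iff_coprime.mpr hcop)
      · obtain ⟨k, hk⟩ := ha1'
        have hv : v * m = 1 - u * p := by linarith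
        rw [hv]
        refine ⟨k + (a2 - a1) * u * (2 * a1 + (a2 - a1) * u * p), ?_⟩
        linear_combination hk
      · obtain ⟨k, hk⟩ := ha2
        have hu : u * p = 1 - v * m := by linarith
        rw [hu]
        refine ⟨k + (a1 - a2) * v * (2 * a2 + (a1 - a2) * v * m), ?_⟩
        linear_combination hk

theorem isSquare_of_jacobi {p : ℕ} (hp : p.Prime) {a : ℤ} (h : jacobiSym a p = 1) :
    IsSquare ((a : ℤ) : ZMod p) := by
  haveI : Fact p.Prime := ⟨hp⟩
  by_cases h0 : ((a : ℤ) : ZMod p) = 0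
  · rw [h0]; exact ⟨0, by ring⟩
  · rw [← jacobiSym.legendreSym.to_jacobiSym] at h
    exact (legendreSym.eq_one_iff p h0).mp h

theorem hsym_pm {N' p q : ℕ} (hN : Squarefree N') (hp : p.Prime) (hp2 : p ≠ 2) (hpN : p ∣ N')
    (hq : q.Prime) : hsym N' p q = 1 ∨ hsym N' p q = -1 := by
  unfold hsym
  split_ifs with h
  · apply jacobiSym.eq_one_or_neg_one
    obtain ⟨m, hm⟩ := hpN
    have hcop : Nat.Coprime p m := by
      apply (Nat.Prime.coprime_iff_not_dvd hp).mpr
      intro hd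
      have : IsUnit p := hN p (by rw [hm]; exact mul_dvd_mul_left p hd)
      exact hp.one_lt.ne' (Nat.isUnit_iff.mp this)
    have hdiv : N' / p = m := by rw [hm]; exact Nat.mul_div_cancel_left m hp.pos
    rw [hdiv, Int.neg_gcd]
    have : Nat.Coprime (2 * m) p := by
      apply Nat.Coprime.mul_left
      · exact (Nat.coprime_primes Nat.prime_two hp).mpr (Ne.symm hp2)
      · exact hcop.symm
    have h2 : Int.gcd (2 * (m : ℤ)) (p : ℤ) = Nat.gcd (2 * m) p := by
      rw [← Int.gcd_natCast_natCast]; push_cast; rfl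
    rw [h2]; exact this
  · apply jacobiSym.eq_one_or_neg_one
    rw [Int.gcd_natCast_natCast]
    exact (Nat.coprime_primes hq hp).mpr h

theorem prod_jacobi (T : Finset ℕ) (p : ℕ) :
    ∏ q ∈ T, jacobiSym (q : ℤ) p = jacobiSym ((∏ q ∈ T, q : ℕ) : ℤ) p := by
  classical
  induction T using Finset.induction_on with
  | empty => simp
  | insert a s ha ih =>
    rw [Finset.prod_insert ha, Finset.prod_insert ha, ih]
    push_cast
    rw [jacobiSym.mul_left]

theorem exists_conic (N' l1 l2 l3 : ℕ) (hN : Squarefree N') (hNo : N' % 2 = 1)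
    (hl1 : l1.Prime) (hl2 : l2.Prime) (hl3 : l3.Prime)
    (o1 : l1 ≠ 2) (o2 : l2 ≠ 2) (o3 : l3 ≠ 2)
    (h12 : l1 ≠ l2) (h13 : l1 ≠ l3) (h23 : l2 ≠ l3)
    (p1 : ¬ l1 ∣ N') (p2 : ¬ l2 ∣ N') (p3 : ¬ l3 ∣ N')
    (s1 : IsSquare (((2 * N' : ℕ) : ℤ) : ZMod l1)) (s2 : IsSquare (((2 * N' : ℕ) : ℤ) : ZMod l2))
    (s3 : IsSquare (((2 * N' : ℕ) : ℤ) : ZMod l3)) :
    ∃ A B C : ℕ, ∃ α β γ : ℤ, 0 < A ∧ 0 < B ∧ 0 < C ∧ A % 2 = 1 ∧ B % 2 = 1 ∧ C % 2 = 1 ∧
      Squarefree A ∧ Squarefree B ∧ Squarefree C ∧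
      Nat.Coprime A B ∧ Nat.Coprime A C ∧ Nat.Coprime B C ∧ (A * C) % 8 = 1 ∧ A * C ≠ 1 ∧
      (A : ℤ) ∣ α ^ 2 + 2 * B * C ∧ (B : ℤ) ∣ β ^ 2 - A * C ∧ (C : ℤ) ∣ γ ^ 2 - 2 * A * B ∧
      A * B = N' ∧ C ≤ l1 * l2 * l3 := by
  classical
  have hN0 : N' ≠ 0 := hN.ne_zero
  obtain ⟨T, hTs, hTn, hT1⟩ := exists_set N' l1 l2 l3 h12 h13 h23
    (fun h => p1 (Nat.dvd_of_mem_primeFactors h)) (fun h => p2 (Nat.dvd_of_mem_primeFactors h))
    (fun h => p3 (Nat.dvd_of_mem_primeFactors h))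
  have hTprime : ∀ q ∈ T, q.Prime := by
    intro q hq
    have := hTs hq
    simp only [mem_union, mem_insert, mem_singleton] at this
    rcases this with h | rfl | rfl | rfl
    · exact Nat.prime_of_mem_primeFactors h
    · exact hl1
    · exact hl2
    · exact hl3
  have hTodd : ∀ q ∈ T, q % 2 = 1 := by
    intro q hq
    have hq2 : q ≠ 2 := by
      have := hTs hq
      simp only [mem_union, mem_insert, mem_singleton] at this
      rcases this with h | rfl | rfl | rfl
      · rintro rfl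
        have := Nat.dvd_of_mem_primeFactors h
        omega
      · exact o1
      · exact o2
      · exact o3
    exact (hTprime q hq).eq_two_or_odd.resolve_left hq2
  set TA := T ∩ N'.primeFactors with hTA
  set TC := T \ N'.primeFactors with hTC
  set TB := N'.primeFactors \ T with hTB
  set A := ∏ q ∈ TA, q with hA
  set B := ∏ q ∈ TB, q with hB
  set C := ∏ q ∈ TC, q with hC
  have hprA : ∀ q ∈ TA, q.Prime := fun q hq => hTprime q (mem_inter.mp hq).1
  have hprB : ∀ q ∈ TB, q.Prime := fun q hq => Nat.prime_of_mem_primeFactors (mem_sdiff.mp hq).1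
  have hprC : ∀ q ∈ TC, q.Prime := fun q hq => hTprime q (mem_sdiff.mp hq).1
  have hAB : A * B = N' := by
    have : ∏ q ∈ N'.primeFactors, q = N' := Nat.prod_primeFactors_of_squarefree hN
    rw [← this, hA, hB, hTA, hTB, Finset.inter_comm]
    exact Finset.prod_inter_mul_prod_sdiff _ _ _
  have hACT : A * C = ∏ q ∈ T, q := by
    rw [hA, hC, hTA, hTC]
    exact Finset.prod_inter_mul_prod_sdiff _ _ _
  have hcopAC : Nat.Coprime A C := by
    rw [hA, hC]
    apply Nat.Coprime.prod_left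
    intro p hp
    apply Nat.Coprime.prod_right
    intro q hq
    rw [Nat.coprime_primes (hprA p hp) (hprC q hq)]
    rintro rfl
    exact (mem_sdiff.mp hq).2 (mem_inter.mp hp).2
  have hcopBC : Nat.Coprime B C := by
    rw [hB, hC]
    apply Nat.Coprime.prod_left
    intro p hp
    apply Nat.Coprime.prod_right
    intro q hq
    rw [Nat.coprime_primes (hprB p hp) (hprC q hq)]
    rintro rfl
    exact (mem_sdiff.mp hq).2 (mem_sdiff.mp hp).1
  have hABs := hN
  rw [← hAB] at hABs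
  have hcopAB : Nat.Coprime A B := Nat.coprime_of_squarefree_mul hABs
  have sA : Squarefree A := hABs.squarefree_of_dvd (dvd_mul_right _ _)
  have sB : Squarefree B := hABs.squarefree_of_dvd (dvd_mul_left _ _)
  have hTCsub : TC ⊆ {l1, l2, l3} := by
    intro q hq
    have h1 := (mem_sdiff.mp hq)
    have h2 := hTs h1.1
    rw [mem_union] at h2
    exact h2.resolve_left h1.2
  have hprod3 : ∏ q ∈ ({l1, l2, l3} : Finset ℕ), q = l1 * l2 * l3 := by
    rw [Finset.prod_insert, Finset.prod_insert, Finset.prod_singleton, mul_assoc]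
    · simpa using h23
    · simp [h12, h13]
  have hCdvd : C ∣ l1 * l2 * l3 := by
    rw [← hprod3]
    exact Finset.prod_dvd_prod_of_subset _ _ _ hTCsub
  have sC : Squarefree C := by
    rw [hC]
    apply Finset.squarefree_prod_of_pairwise_isCoprime
    · intro p hp q hq hpq
      show IsRelPrime p q
      rw [← Nat.coprime_iff_isRelPrime]
      exact (Nat.coprime_primes (hprC p hp) (hprC q hq)).mpr hpq
    · intro q hq; exact (hprC q hq).prime.squarefree
  have hApos : 0 < A := Finset.prod_pos (fun q hq => (hprA q hq).pos)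
  have hBpos : 0 < B := Finset.prod_pos (fun q hq => (hprB q hq).pos)
  have hCpos : 0 < C := Finset.prod_pos (fun q hq => (hprC q hq).pos)
  have hAo : A % 2 = 1 := by
    by_contra hcon
    have : 2 ∣ N' := by rw [← hAB]; exact Dvd.dvd.mul_right (by omega) _
    omega
  have hBo : B % 2 = 1 := by
    by_contra hcon
    have : 2 ∣ N' := by rw [← hAB]; exact Dvd.dvd.mul_left (by omega) _
    omega
  have hCo : C % 2 = 1 := by
    by_contra hcon
    have h2 : 2 ∣ l1 * l2 * l3 := (show 2 ∣ C by omega).trans hCdvd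
    rcases Nat.prime_two.dvd_mul.mp h2 with h | h
    · rcases Nat.prime_two.dvd_mul.mp h with h | h
      · exact o1 ((Nat.prime_dvd_prime_iff_eq Nat.prime_two hl1).mp h).symm
      · exact o2 ((Nat.prime_dvd_prime_iff_eq Nat.prime_two hl2).mp h).symm
    · exact o3 ((Nat.prime_dvd_prime_iff_eq Nat.prime_two hl3).mp h).symm
  -- the class mod 8
  have hT8 : ∏ q ∈ T, u8 q = 1 := by
    have := congrArg Prod.snd hT1
    rw [Prod.snd_prod] at this
    exact this
  have h8 : (A * C) % 8 = 1 := by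
    have h1 : (((A * C : ℕ)) : ZMod 8) = ((1 : ℕ) : ZMod 8) := by
      rw [hACT]
      push_cast
      have h2 : ∏ q ∈ T, ((q : ℕ) : ZMod 8) = ∏ q ∈ T, ((u8 q : (ZMod 8)ˣ) : ZMod 8) :=
        Finset.prod_congr rfl (fun q hq => (u8_val (hTodd q hq)).symm)
      rw [h2, ← Units.coe_prod, hT8]
      simp
    rw [ZMod.natCast_eq_natCast_iff] at h1
    exact h1
  have hne1 : A * C ≠ 1 := by
    rw [hACT]
    intro h
    obtain ⟨q, hq⟩ := hTn
    have h1 : q ∣ ∏ q ∈ T, q := Finset.dvd_prod_of_mem _ hq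
    rw [h] at h1
    exact (hTprime q hq).one_lt.ne' (Nat.dvd_one.mp h1)
  -- the symbols
  have hsy : ∀ p ∈ N'.primeFactors, ∏ q ∈ T, hsym N' p q = 1 := by
    intro p hp
    have h1 := congrFun (congrArg Prod.fst hT1) ⟨p, hp⟩
    rw [Prod.fst_prod, Finset.prod_apply] at h1
    have h2 : ∏ q ∈ T, usgn (hsym N' p q) = 1 := h1
    have h3 : ∏ q ∈ T, hsym N' p q = ∏ q ∈ T, ((usgn (hsym N' p q) : ℤˣ) : ℤ) := by
      apply Finset.prod_congr rfl
      intro q hq
      rw [usgn_val]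
      apply hsym_pm hN (Nat.prime_of_mem_primeFactors hp) _ (Nat.dvd_of_mem_primeFactors hp)
        (hTprime q hq)
      rintro rfl
      have := Nat.dvd_of_mem_primeFactors hp
      omega
    rw [h3, ← Units.coe_prod, h2]
    simp
  have hsqA : ∀ p : ℕ, p.Prime → p ∣ A → IsSquare (((-(2 * B * C) : ℤ)) : ZMod p) := by
    intro p hp hpA
    haveI : Fact p.Prime := ⟨hp⟩
    have hpN : p ∈ N'.primeFactors := by
      rw [Nat.mem_primeFactors]
      exact ⟨hp, hpA.trans (by rw [← hAB]; exact dvd_mul_right _ _), hN0⟩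
    have hpT : p ∈ T := by
      rw [hA] at hpA
      obtain ⟨q, hq, hpq⟩ := (Prime.dvd_finsetProd_iff hp.prime _).mp hpA
      have := (Nat.prime_dvd_prime_iff_eq hp (hprA q hq)).mp hpq
      subst this
      exact (mem_inter.mp hq).1
    obtain ⟨A1, hA1⟩ := hpA
    have hA1p : ¬ p ∣ A1 := by
      intro hd
      have : IsUnit p := sA p (by rw [hA1]; exact mul_dvd_mul_left p hd)
      exact hp.one_lt.ne' (Nat.isUnit_iff.mp this)
    have e1 : N' / p = A1 * B := by
      rw [← hAB, hA1, mul_assoc]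
      exact Nat.mul_div_cancel_left _ hp.pos
    have e2 : ∏ q ∈ T.erase p, q = A1 * C := by
      have h1 : p * ∏ q ∈ T.erase p, q = ∏ q ∈ T, q := Finset.mul_prod_erase T (fun q => q) hpT
      rw [← hACT, hA1, mul_assoc] at h1
      exact Nat.eq_of_mul_eq_mul_left hp.pos h1
    have h1 := hsy p hpN
    rw [← Finset.mul_prod_erase T (fun q => hsym N' p q) hpT] at h1
    have h2 : ∏ q ∈ T.erase p, hsym N' p q = jacobiSym ((A1 * C : ℕ) : ℤ) p := by
      rw [← e2, ← prod_jacobi]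
      apply Finset.prod_congr rfl
      intro q hq
      unfold hsym
      rw [if_neg (Finset.ne_of_mem_erase hq)]
    have h3 : hsym N' p p = jacobiSym (-(2 * ((A1 * B : ℕ) : ℤ))) p := by
      unfold hsym
      rw [if_pos rfl, e1]
    have h4 : jacobiSym (-(2 * ((A1 * B : ℕ) : ℤ)) * ((A1 * C : ℕ) : ℤ)) p = 1 := by
      rw [jacobiSym.mul_left, ← h3, ← h2]
      exact h1
    obtain ⟨r, hr⟩ := isSquare_of_jacobi hp h4
    have hA1z : ((A1 : ℕ) : ZMod p) ≠ 0 := by
      intro h; exact hA1p ((ZMod.natCast_eq_zero_iff A1 p).mp h)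
    refine ⟨r * ((A1 : ℕ) : ZMod p)⁻¹, ?_⟩
    have h5 : r * ((A1 : ℕ) : ZMod p)⁻¹ * (r * ((A1 : ℕ) : ZMod p)⁻¹)
      = (r * r) * (((A1 : ℕ) : ZMod p)⁻¹ * ((A1 : ℕ) : ZMod p)⁻¹) := by ring
    rw [h5, ← hr]
    push_cast
    field_simp
  have hsqB : ∀ p : ℕ, p.Prime → p ∣ B → IsSquare (((A * C : ℤ)) : ZMod p) := by
    intro p hp hpB
    have hpN : p ∈ N'.primeFactors := by
      rw [Nat.mem_primeFactors]
      exact ⟨hp, hpB.trans (by rw [← hAB]; exact dvd_mul_left _ _), hN0⟩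
    have hpT : p ∉ T := by
      intro hpT
      have hpA : p ∣ A := by
        rw [hA]; exact Finset.dvd_prod_of_mem _ (mem_inter.mpr ⟨hpT, hpN⟩)
      exact hp.one_lt.ne' (Nat.eq_one_of_dvd_coprimes hcopAB hpA hpB)
    have h1 := hsy p hpN
    have h2 : ∏ q ∈ T, hsym N' p q = jacobiSym ((A * C : ℤ)) p := by
      have h3 : ((A : ℤ) * (C : ℤ)) = ((∏ q ∈ T, q : ℕ) : ℤ) := by rw [← hACT]; push_cast; rfl
      rw [h3, ← prod_jacobi]
      apply Finset.prod_congr rfl
      intro q hq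
      unfold hsym
      rw [if_neg (by rintro rfl; exact hpT hq)]
    rw [h2] at h1
    exact isSquare_of_jacobi hp h1
  have hsqC : ∀ p : ℕ, p.Prime → p ∣ C → IsSquare (((2 * A * B : ℤ)) : ZMod p) := by
    intro p hp hpC
    have h1 : ((2 * A * B : ℤ)) = ((2 * N' : ℕ) : ℤ) := by rw [← hAB]; push_cast; ring
    rw [h1]
    have h2 : p ∣ l1 * l2 * l3 := hpC.trans hCdvd
    rcases hp.dvd_mul.mp h2 with h | h
    · rcases hp.dvd_mul.mp h with h | h
      · have := (Nat.prime_dvd_prime_iff_eq hp hl1).mp h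
        subst this; exact s1
      · have := (Nat.prime_dvd_prime_iff_eq hp hl2).mp h
        subst this; exact s2
    · have := (Nat.prime_dvd_prime_iff_eq hp hl3).mp h
      subst this; exact s3
  obtain ⟨α, hα⟩ := exists_sq_mod A _ sA hsqA
  obtain ⟨β, hβ⟩ := exists_sq_mod B _ sB hsqB
  obtain ⟨γ, hγ⟩ := exists_sq_mod C _ sC hsqC
  refine ⟨A, B, C, α, β, γ, hApos, hBpos, hCpos, hAo, hBo, hCo, sA, sB, sC, hcopAB, hcopAC, hcopBC,
    h8, hne1, ?_, hβ, hγ, hAB, Nat.le_of_dvd ?_ hCdvd⟩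
  · rwa [sub_neg_eq_add] at hα
  · have := hl1.pos; have := hl2.pos; have := hl3.pos; positivity

end Pool.Agent.Work.MP_8efaaa_nt.G
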