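import Mathlib
import Pool.Agent.Work.MP_8efaaa_nt.Defs
import Pool.Agent.Work.MP_8efaaa_nt.G.Sieve
import Pool.Agent.Work.MP_8efaaa_nt.G.Sub
import Pool.Agent.Work.MP_8efaaa_nt.G.Number

set_option autoImplicit false

/-!
MP_8efaaa_nt, theorem G: every squarefree `a` divides a squarefree congruent number
`n = c (mod 16)` with `n <= C a ^ (2 + eps)`, for every `c = 2 (mod 4)`.
-/

namespace Pool.Agent.Work.MP_8efaaa_nt.G

open Finset

theorem exists_prime_avoid (P : Finset ℕ) (hP : ∀ p ∈ P, p.Prime) (hP2 : ∀ p ∈ P, p ≠ 2) :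
    ∃ l : ℕ, l.Prime ∧ l ≠ 2 ∧ l ∉ P ∧ l ≤ 3 + 4 * 3 ^ P.card := by
  have hq : ∀ p ∈ P, ¬ p ∣ 4 := by
    intro p hp hd
    have h1 : p ∣ 2 ^ 2 := by simpa using hd
    have := (hP p hp).dvd_of_dvd_pow h1
    exact hP2 p hp ((Nat.prime_dvd_prime_iff_eq (hP p hp) Nat.prime_two).mp this)
  obtain ⟨j, hj, hjp⟩ := exists_coprime_term P hP hP2 4 3 hq
  have ht : 3 + 4 * j ≠ 1 := by omega
  refine ⟨(3 + 4 * j).minFac, Nat.minFac_prime ht, ?_, ?_, ?_⟩
  · intro h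
    have := Nat.minFac_dvd (3 + 4 * j)
    rw [h] at this
    omega
  · intro h
    exact hjp _ h (Nat.minFac_dvd _)
  · have := Nat.minFac_le (show 0 < 3 + 4 * j by omega)
    omega

theorem isSquare_two_mul {l a' m m0 s N' : ℕ} (hl : l.Prime) (hsm : s ^ 2 * m0 = m)
    (hN : N' = a' * m0) (hm : ((m : ℕ) : ZMod l) = ((2 * a' : ℕ) : ZMod l)) (hlm : ¬ l ∣ m) :
    IsSquare (((2 * N' : ℕ) : ℤ) : ZMod l) := by
  haveI : Fact l.Prime := ⟨hl⟩
  have hs : ((s : ℕ) : ZMod l) ≠ 0 := by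
    intro h
    have h1 : l ∣ s := (ZMod.natCast_eq_zero_iff s l).mp h
    exact hlm (by rw [← hsm]; exact Dvd.dvd.mul_right (dvd_pow h1 (by norm_num)) _)
  refine ⟨((2 * a' : ℕ) : ZMod l) * ((s : ℕ) : ZMod l)⁻¹, ?_⟩
  have h2 : ((s : ℕ) : ZMod l) ^ 2 * ((m0 : ℕ) : ZMod l) = ((2 * a' : ℕ) : ZMod l) := by
    rw [← hm, ← hsm]; push_cast; ring
  have h3 : (((2 * N' : ℕ) : ℤ) : ZMod l) = ((2 * a' : ℕ) : ZMod l) * ((m0 : ℕ) : ZMod l) := by
    rw [hN]; push_cast; ring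
  rw [h3]
  have h4 : ((m0 : ℕ) : ZMod l) = ((2 * a' : ℕ) : ZMod l) * (((s : ℕ) : ZMod l)⁻¹) ^ 2 := by
    rw [← h2]; field_simp
  rw [h4]; ring

theorem main_nat (a' : ℕ) (ha : Squarefree a') (hao : a' % 2 = 1) (e : ℕ) (he : e % 2 = 1) :
    ∃ n : ℕ, Squarefree n ∧ 2 * a' ∣ n ∧ n % 16 = 2 * (e % 8) ∧
      n ≤ 24 * 256 * 4095 ^ 4 * a' ^ 2 * 4782969 ^ a'.primeFactors.card ∧ IsCongruent n := by
  classical
  have ha0 : 0 < a' := Nat.pos_of_ne_zero ha.ne_zero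
  set k := a'.primeFactors.card with hk
  set P0 := a'.primeFactors with hP0
  have hP0p : ∀ p ∈ P0, p.Prime := fun p hp => Nat.prime_of_mem_primeFactors hp
  have hP02 : ∀ p ∈ P0, p ≠ 2 := by
    rintro p hp rfl
    have := Nat.dvd_of_mem_primeFactors hp
    omega
  obtain ⟨l1, hl1, o1, n1, b1⟩ := exists_prime_avoid P0 hP0p hP02
  have hP1p : ∀ p ∈ insert l1 P0, p.Prime := by
    intro p hp
    rcases Finset.mem_insert.mp hp with rfl | h
    · exact hl1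
    · exact hP0p p h
  have hP12 : ∀ p ∈ insert l1 P0, p ≠ 2 := by
    intro p hp
    rcases Finset.mem_insert.mp hp with rfl | h
    · exact o1
    · exact hP02 p h
  obtain ⟨l2, hl2, o2, n2, b2⟩ := exists_prime_avoid (insert l1 P0) hP1p hP12
  have hP2p : ∀ p ∈ insert l2 (insert l1 P0), p.Prime := by
    intro p hp
    rcases Finset.mem_insert.mp hp with rfl | h
    · exact hl2
    · exact hP1p p h
  have hP22 : ∀ p ∈ insert l2 (insert l1 P0), p ≠ 2 := by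
    intro p hp
    rcases Finset.mem_insert.mp hp with rfl | h
    · exact o2
    · exact hP12 p h
  obtain ⟨l3, hl3, o3, n3, b3⟩ := exists_prime_avoid (insert l2 (insert l1 P0)) hP2p hP22
  rw [Finset.card_insert_of_notMem n1] at b2
  rw [Finset.card_insert_of_notMem n2, Finset.card_insert_of_notMem n1] at b3
  simp only [Finset.mem_insert, not_or] at n2 n3
  obtain ⟨h21, n2⟩ := n2
  obtain ⟨h32, h31, n3⟩ := n3
  have nd : ∀ l : ℕ, l.Prime → l ∉ P0 → ¬ l ∣ a' := by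
    intro l hl hn hd
    exact hn (Nat.mem_primeFactors.mpr ⟨hl, hd, ha0.ne'⟩)
  set L := l1 * l2 * l3 with hL
  have hLpos : 0 < L := by
    have := hl1.pos; have := hl2.pos; have := hl3.pos; positivity
  -- the progression
  have hodd : ∀ l : ℕ, l.Prime → l ≠ 2 → Nat.Coprime 8 l := by
    intro l hl h2
    have : Nat.Coprime (2 ^ 3) l := Nat.Coprime.pow_left 3
      ((Nat.coprime_primes Nat.prime_two hl).mpr (Ne.symm h2))
    simpa using this
  have h8L : Nat.Coprime 8 L := by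
    rw [hL]
    exact Nat.Coprime.mul_right (Nat.Coprime.mul_right (hodd l1 hl1 o1) (hodd l2 hl2 o2))
      (hodd l3 hl3 o3)
  obtain ⟨c0, hc0⟩ : ∃ c0, c0 = Nat.chineseRemainder h8L (e * a') (2 * a') := ⟨_, rfl⟩
  have hc8 : (c0 : ℕ) ≡ e * a' [MOD 8] := c0.2.1
  have hcL : (c0 : ℕ) ≡ 2 * a' [MOD L] := c0.2.2
  have hclt : (c0 : ℕ) < 8 * L := by
    rw [hc0]; exact Nat.chineseRemainder_lt_mul h8L _ _ (by norm_num) hLpos.ne'
  have hq : ∀ p ∈ P0, ¬ p ∣ 8 * L := by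
    intro p hp hd
    have pp := hP0p p hp
    have hne : ∀ l : ℕ, l.Prime → l ∉ P0 → ¬ p ∣ l := by
      intro l hl hn h
      have := (Nat.prime_dvd_prime_iff_eq pp hl).mp h
      subst this; exact hn hp
    rcases pp.dvd_mul.mp hd with h | h
    · have h1 : p ∣ 2 ^ 3 := by simpa using h
      have := pp.dvd_of_dvd_pow h1
      exact hP02 p hp ((Nat.prime_dvd_prime_iff_eq pp Nat.prime_two).mp this)
    · rw [hL] at h
      rcases pp.dvd_mul.mp h with h | h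
      · rcases pp.dvd_mul.mp h with h | h
        · exact hne l1 hl1 n1 h
        · exact hne l2 hl2 n2 h
      · exact hne l3 hl3 n3 h
  obtain ⟨j, hj, hjp⟩ := exists_coprime_term P0 hP0p hP02 (8 * L) (c0 : ℕ) hq
  set m := (c0 : ℕ) + 8 * L * j with hm
  have hm8 : m ≡ e * a' [MOD 8] := by
    have h1 : m ≡ (c0 : ℕ) [MOD 8] := by
      rw [hm]
      have : 8 * L * j = 8 * (L * j) := by ring
      rw [this]
      exact (Nat.modEq_iff_dvd' (by omega)).mpr ⟨L * j, by omega⟩ |>.symm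
    exact h1.trans hc8
  have hmL : m ≡ 2 * a' [MOD L] := by
    have h1 : m ≡ (c0 : ℕ) [MOD L] := by
      rw [hm]
      have : 8 * L * j = L * (8 * j) := by ring
      rw [this]
      exact (Nat.modEq_iff_dvd' (by omega)).mpr ⟨8 * j, by omega⟩ |>.symm
    exact h1.trans hcL
  have hmo : m % 2 = 1 := by
    have h1 : m ≡ e * a' [MOD 2] := hm8.of_dvd (by norm_num)
    have h2 : (e * a') % 2 = 1 := by rw [Nat.mul_mod, he, hao]
    unfold Nat.ModEq at h1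
    omega
  have hm0pos : 0 < m := by omega
  obtain ⟨m0, s, hsm, hm0s⟩ := Nat.sq_mul_squarefree m
  have hm0m : m0 ∣ m := ⟨s ^ 2, by rw [← hsm]; ring⟩
  have hm0le : m0 ≤ m := Nat.le_of_dvd hm0pos hm0m
  have hm0pos' : 0 < m0 := Nat.pos_of_ne_zero hm0s.ne_zero
  have hcop : Nat.Coprime a' m0 := by
    apply Nat.coprime_of_dvd
    intro p hp hpa hpm
    exact hjp p (Nat.mem_primeFactors.mpr ⟨hp, hpa, ha0.ne'⟩) (hpm.trans hm0m)
  have hso : s % 2 = 1 := by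
    by_contra hcon
    obtain ⟨s1, rfl⟩ : 2 ∣ s := by omega
    have : (2 * s1) ^ 2 * m0 = 2 * (2 * s1 ^ 2 * m0) := by ring
    omega
  have hm08 : m0 ≡ e * a' [MOD 8] := by
    have h3 := odd_sq_mod8 hso
    have h4 : (s ^ 2 * m0) % 8 = m0 % 8 := by rw [Nat.mul_mod, h3]; omega
    rw [hsm] at h4
    have : m0 ≡ m [MOD 8] := h4.symm
    exact this.trans hm8
  have hm0o : m0 % 2 = 1 := by
    by_contra hcon
    have : 2 ∣ m := (show 2 ∣ m0 by omega).trans hm0m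
    omega
  set N' := a' * m0 with hN'
  have hN's : Squarefree N' := (Nat.squarefree_mul hcop).mpr ⟨ha, hm0s⟩
  have hN'o : N' % 2 = 1 := by rw [hN', Nat.mul_mod, hao, hm0o]
  -- the symbols at l_i
  have hlm : ∀ l : ℕ, l.Prime → l ≠ 2 → l ∉ P0 → l ∣ L → ¬ l ∣ m ∧
      ((m : ℕ) : ZMod l) = ((2 * a' : ℕ) : ZMod l) := by
    intro l hl h2 hn hd
    have h1 : m ≡ 2 * a' [MOD l] := hmL.of_dvd hd
    refine ⟨?_, (ZMod.natCast_eq_natCast_iff _ _ _).mpr h1⟩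
    intro h
    have h3 : l ∣ 2 * a' := (h1.dvd_iff dvd_rfl).mp h
    rcases hl.dvd_mul.mp h3 with h4 | h4
    · exact h2 ((Nat.prime_dvd_prime_iff_eq hl Nat.prime_two).mp h4)
    · exact nd l hl hn h4
  have d1 : l1 ∣ L := ⟨l2 * l3, by rw [hL]; ring⟩
  have d2 : l2 ∣ L := ⟨l1 * l3, by rw [hL]; ring⟩
  have d3 : l3 ∣ L := ⟨l1 * l2, by rw [hL]; ring⟩
  obtain ⟨q1, r1⟩ := hlm l1 hl1 o1 n1 d1
  obtain ⟨q2, r2⟩ := hlm l2 hl2 o2 n2 d2
  obtain ⟨q3, r3⟩ := hlm l3 hl3 o3 n3 d3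
  have ndN : ∀ l : ℕ, l.Prime → l ∉ P0 → ¬ l ∣ m → ¬ l ∣ N' := by
    intro l hl hn hnm h
    rcases hl.dvd_mul.mp h with h1 | h1
    · exact nd l hl hn h1
    · exact hnm (h1.trans hm0m)
  obtain ⟨A, B, C, α, β, γ, hA, hB, hC, oA, oB, oC, sA, sB, sC, cAB, cAC, cBC, h8, hne, hα, hβ, hγ,
    hABN, hCle⟩ := exists_conic N' l1 l2 l3 hN's hN'o hl1 hl2 hl3 o1 o2 o3 (Ne.symm h21)
      (Ne.symm h31) (Ne.symm h32) (ndN l1 hl1 n1 q1) (ndN l2 hl2 n2 q2) (ndN l3 hl3 n3 q3)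
      (isSquare_two_mul hl1 hsm hN' r1 q1) (isSquare_two_mul hl2 hsm hN' r2 q2)
      (isSquare_two_mul hl3 hsm hN' r3 q3)
  obtain ⟨t, hts, htc, ht8, htle, htcong⟩ := conic_number A B C hA hB hC oA oB oC sA sB sC cAB cAC
    cBC h8 hne α β γ hα hβ hγ
  rw [hABN] at htc htcong
  refine ⟨2 * N' * t, ?_, ?_, ?_, ?_, htcong⟩
  · rw [Nat.squarefree_mul htc]
    refine ⟨?_, hts⟩
    rw [Nat.squarefree_mul (Nat.coprime_two_left.mpr (Nat.odd_iff.mpr hN'o))]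
    exact ⟨Nat.prime_two.prime.squarefree, hN's⟩
  · exact ⟨m0 * t, by rw [hN']; ring⟩
  · -- class mod 16
    have g1 : N' ≡ e [MOD 8] := by
      have g2 : N' ≡ a' * (e * a') [MOD 8] := Nat.ModEq.mul_left a' hm08
      have g3 : a' * (e * a') = a' ^ 2 * e := by ring
      have g4 : a' ^ 2 * e ≡ 1 * e [MOD 8] := by
        apply Nat.ModEq.mul_right
        exact odd_sq_mod8 hao
      rw [g3] at g2
      have := g2.trans g4
      rwa [one_mul] at this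
    have g5 : N' * t ≡ e [MOD 8] := by
      have : N' * t ≡ e * 1 [MOD 8] := Nat.ModEq.mul g1 ht8
      rwa [mul_one] at this
    have g6 : 2 * N' * t = 2 * (N' * t) := by ring
    rw [g6]
    unfold Nat.ModEq at g5
    omega
  · -- size
    set K3 := 3 ^ k with hK3
    have hK1 : 1 ≤ K3 := Nat.one_le_pow _ _ (by norm_num)
    have c1 : l1 ≤ 7 * K3 := by omega
    have c2 : l2 ≤ 15 * K3 := by
      have : 3 ^ (k + 1) = 3 * K3 := by rw [hK3]; ring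
      rw [this] at b2
      omega
    have c3 : l3 ≤ 39 * K3 := by
      have : 3 ^ (k + 1 + 1) = 9 * K3 := by rw [hK3]; ring
      rw [this] at b3
      omega
    have cL : L ≤ 4095 * K3 ^ 3 := by
      calc L = l1 * l2 * l3 := hL
        _ ≤ (7 * K3) * (15 * K3) * (39 * K3) := Nat.mul_le_mul (Nat.mul_le_mul c1 c2) c3
        _ = 4095 * K3 ^ 3 := by ring
    have cm : m ≤ 16 * L * K3 := by
      have h1 : 8 * L * j ≤ 8 * L * K3 := Nat.mul_le_mul_left _ hj.le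
      have h2 : 8 * L ≤ 8 * L * K3 := Nat.le_mul_of_pos_right _ hK1
      have h3 : 16 * L * K3 = 8 * L * K3 + 8 * L * K3 := by ring
      omega
    have cN : N' ≤ a' * (16 * L * K3) := Nat.mul_le_mul_left _ (hm0le.trans cm)
    have ct : t ≤ 12 * N' * L ^ 2 := by
      calc t ≤ 12 * A * B * C ^ 2 := htle
        _ = 12 * (A * B) * C ^ 2 := by ring
        _ = 12 * N' * C ^ 2 := by rw [hABN]
        _ ≤ 12 * N' * L ^ 2 := Nat.mul_le_mul_left _ (Nat.pow_le_pow_left hCle 2)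
    calc 2 * N' * t ≤ 2 * N' * (12 * N' * L ^ 2) := Nat.mul_le_mul_left _ ct
      _ = 24 * N' ^ 2 * L ^ 2 := by ring
      _ ≤ 24 * (a' * (16 * L * K3)) ^ 2 * L ^ 2 :=
          Nat.mul_le_mul_right _ (Nat.mul_le_mul_left _ (Nat.pow_le_pow_left cN 2))
      _ = 24 * 256 * a' ^ 2 * K3 ^ 2 * L ^ 4 := by ring
      _ ≤ 24 * 256 * a' ^ 2 * K3 ^ 2 * (4095 * K3 ^ 3) ^ 4 :=
          Nat.mul_le_mul_left _ (Nat.pow_le_pow_left cL 4)
      _ = 24 * 256 * 4095 ^ 4 * a' ^ 2 * K3 ^ 14 := by ring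
      _ = 24 * 256 * 4095 ^ 4 * a' ^ 2 * 4782969 ^ k := by
          rw [hK3, ← pow_mul, mul_comm k 14, pow_mul]
          norm_num

/-- Every squarefree `a` divides a squarefree congruent number in every class `2 mod 4` modulo
`16`, of size `a ^ (2 + ε)`. -/
theorem main (ε : ℝ) (hε : 0 < ε) : ∃ K : ℝ, ∀ a : ℕ, Squarefree a → ∀ c : ℕ, c % 4 = 2 →
    ∃ n : ℕ, Squarefree n ∧ a ∣ n ∧ n % 16 = c % 16 ∧ (n : ℝ) ≤ K * (a : ℝ) ^ (2 + ε) ∧
      IsCongruent n := by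
  obtain ⟨K, hK1, hK⟩ := pow_omega_le 4782969 (by norm_num) ε hε
  refine ⟨24 * 256 * 4095 ^ 4 * K, fun a ha c hc => ?_⟩
  have ha0 : 0 < a := Nat.pos_of_ne_zero ha.ne_zero
  obtain ⟨a', hao, ha'a, haa', has⟩ : ∃ a' : ℕ, a' % 2 = 1 ∧ a' ∣ a ∧ a ∣ 2 * a' ∧
      Squarefree a' := by
    rcases Nat.even_or_odd a with he | ho
    · obtain ⟨b, hb⟩ := he
      have hb2 : a = 2 * b := by omega
      refine ⟨b, ?_, ⟨2, by omega⟩, ⟨1, by omega⟩, ha.squarefree_of_dvd ⟨2, by omega⟩⟩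
      by_contra hcon
      obtain ⟨d, hd⟩ : 2 ∣ b := by omega
      have : IsUnit 2 := ha 2 ⟨d, by rw [hb2, hd]; ring⟩
      rw [Nat.isUnit_iff] at this
      omega
    · exact ⟨a, Nat.odd_iff.mp ho, dvd_rfl, dvd_mul_left _ _, ha⟩
  obtain ⟨n, hns, hdn, hn16, hnle, hcong⟩ := main_nat a' has hao (c / 2) (by omega)
  refine ⟨n, hns, haa'.trans hdn, ?_, ?_, hcong⟩
  · rw [hn16]; omega
  · have h1 : a' ≤ a := Nat.le_of_dvd ha0 ha'a
    have h2 : a'.primeFactors.card ≤ a.primeFactors.card :=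
      Finset.card_le_card (Nat.primeFactors_mono ha'a ha0.ne')
    have h3 : n ≤ 24 * 256 * 4095 ^ 4 * a ^ 2 * 4782969 ^ a.primeFactors.card := by
      calc n ≤ 24 * 256 * 4095 ^ 4 * a' ^ 2 * 4782969 ^ a'.primeFactors.card := hnle
        _ ≤ 24 * 256 * 4095 ^ 4 * a ^ 2 * 4782969 ^ a.primeFactors.card := by
            apply Nat.mul_le_mul
            · exact Nat.mul_le_mul_left _ (Nat.pow_le_pow_left h1 2)
            · exact Nat.pow_le_pow_right (by norm_num) h2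
    have h4 : (n : ℝ) ≤ 24 * 256 * 4095 ^ 4 * (a : ℝ) ^ 2 *
        (4782969 : ℝ) ^ a.primeFactors.card := by exact_mod_cast h3
    have h5 := hK a ha0
    have har : (0 : ℝ) < a := by exact_mod_cast ha0
    have h6 : (a : ℝ) ^ (2 + ε) = (a : ℝ) ^ 2 * (a : ℝ) ^ ε := by
      rw [Real.rpow_add har, Real.rpow_two]
    rw [h6]
    calc (n : ℝ) ≤ 24 * 256 * 4095 ^ 4 * (a : ℝ) ^ 2 *
          (4782969 : ℝ) ^ a.primeFactors.card := h4
      _ ≤ 24 * 256 * 4095 ^ 4 * (a : ℝ) ^ 2 * (K * (a : ℝ) ^ ε) := by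
          apply mul_le_mul_of_nonneg_left _ (by positivity)
          exact_mod_cast h5
      _ = 24 * 256 * 4095 ^ 4 * K * ((a : ℝ) ^ 2 * (a : ℝ) ^ ε) := by ring

end Pool.Agent.Work.MP_8efaaa_nt.G
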