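import Mathlib
import Pool.Agent.Work.MP_8efaaa_nt.Defs
import Pool.Agent.Work.MP_8efaaa_nt.G.Main

set_option autoImplicit false

/-!
MP_8efaaa_nt, theorem G, odd `a`: a multiplier `b = 1 (mod 8)` of size `a ^ (3/2 + eps)`.
-/

namespace Pool.Agent.Work.MP_8efaaa_nt.G

open Finset

theorem odd_family (a r s : ℕ) (ha : Squarefree a) (hao : a % 2 = 1) (hr : r % 2 = 1)
    (hs : s % 2 = 0) (hs0 : 0 < s) (hco : Nat.Coprime a s) (hlt : s ^ 2 < a * r ^ 2) :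
    ∃ b : ℕ, Squarefree b ∧ Nat.Coprime a b ∧ b % 8 = 1 ∧ b + (s ^ 2) ^ 2 ≤ (a * r ^ 2) ^ 2 ∧
      IsCongruent (a * b) := by
  have ha0 : 0 < a := Nat.pos_of_ne_zero ha.ne_zero
  obtain ⟨s1, rfl⟩ : 2 ∣ s := by omega
  have hlt2 : ((2 * s1) ^ 2) ^ 2 < (a * r ^ 2) ^ 2 := Nat.pow_lt_pow_left hlt (by norm_num)
  obtain ⟨D, hD⟩ : ∃ D, D + ((2 * s1) ^ 2) ^ 2 = (a * r ^ 2) ^ 2 :=
    ⟨(a * r ^ 2) ^ 2 - ((2 * s1) ^ 2) ^ 2, by omega⟩
  have hD0 : 0 < D := by omega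
  have hD8 : D % 8 = 1 := by
    have h1 : (a * r ^ 2) % 2 = 1 := by
      have : r ^ 2 % 2 = 1 := by rw [Nat.pow_mod, hr]
      rw [Nat.mul_mod, hao, this]
    have h2 := odd_sq_mod8 h1
    have h3 : ((2 * s1) ^ 2) ^ 2 = 8 * (2 * s1 ^ 4) := by ring
    rw [h3] at hD
    omega
  obtain ⟨b, t, hbt, hb⟩ := Nat.sq_mul_squarefree D
  have ht0 : 0 < t := by
    apply Nat.pos_of_ne_zero; rintro rfl
    have h3 : (0 : ℕ) ^ 2 * b = 0 := by ring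
    omega
  have hb0 : 0 < b := Nat.pos_of_ne_zero hb.ne_zero
  have hto : t % 2 = 1 := by
    by_contra hcon
    obtain ⟨t1, rfl⟩ : 2 ∣ t := by omega
    have : (2 * t1) ^ 2 * b = 2 * (2 * t1 ^ 2 * b) := by ring
    omega
  have hb8 : b % 8 = 1 := by
    have h3 := odd_sq_mod8 hto
    have h4 : (t ^ 2 * b) % 8 = b % 8 := by rw [Nat.mul_mod, h3]; omega
    rw [hbt] at h4
    omega
  refine ⟨b, hb, ?_, hb8, ?_, ?_⟩
  · have hbD : b ∣ D := ⟨t ^ 2, by rw [← hbt]; ring⟩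
    apply Nat.Coprime.coprime_dvd_right hbD
    apply Nat.coprime_of_dvd
    intro p hp hpa hpD
    have h1 : p ∣ ((2 * s1) ^ 2) ^ 2 := by
      have h2 : p ∣ (a * r ^ 2) ^ 2 := dvd_pow (Dvd.dvd.mul_right hpa _) (by norm_num)
      rw [← hD] at h2
      exact (Nat.dvd_add_right hpD).mp h2
    have h2 : p ∣ 2 * s1 := hp.dvd_of_dvd_pow (hp.dvd_of_dvd_pow h1)
    exact hp.one_lt.ne' (Nat.eq_one_of_dvd_coprimes hco hpa h2)
  · have : b ≤ D := by rw [← hbt]; exact Nat.le_mul_of_pos_left _ (by positivity)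
    omega
  · refine isCongruent_of_area (m := ((a * r ^ 2 : ℕ) : ℤ)) (n := (((2 * s1) ^ 2 : ℕ) : ℤ))
      (w := ((r * (2 * s1) * t : ℕ) : ℤ)) ?_ ?_ ?_
    · positivity
    · have hr0 : 0 < r := by omega
      have : 0 < r * (2 * s1) * t := by positivity
      exact_mod_cast this.ne'
    · have h1 : ((a * r ^ 2 : ℕ) : ℤ) ^ 2 - (((2 * s1) ^ 2 : ℕ) : ℤ) ^ 2 = (t : ℤ) ^ 2 * b := by
        have h2 : ((D + ((2 * s1) ^ 2) ^ 2 : ℕ) : ℤ) = (((a * r ^ 2) ^ 2 : ℕ) : ℤ) := by rw [hD]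
        rw [← hbt] at h2
        push_cast at h2 ⊢
        linarith
      rw [h1]
      push_cast
      ring

theorem odd_nat (a : ℕ) (ha : Squarefree a) (hao : a % 2 = 1) :
    ∃ b : ℕ, Squarefree b ∧ Nat.Coprime a b ∧ b % 8 = 1 ∧
      b ^ 2 ≤ (324 * 3 ^ a.primeFactors.card) ^ 2 * a ^ 3 ∧ IsCongruent (a * b) := by
  have ha0 : 0 < a := Nat.pos_of_ne_zero ha.ne_zero
  set k := a.primeFactors.card with hk
  set R := Nat.sqrt a with hR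
  have hR1 : R ^ 2 ≤ a := Nat.sqrt_le' a
  have hR2 : a < (R + 1) ^ 2 := Nat.lt_succ_sqrt' a
  have hK : 1 ≤ 3 ^ k := Nat.one_le_pow _ _ (by norm_num)
  rcases Nat.lt_or_ge (R / 2) (3 ^ k) with hlt | hge
  · -- small `a`
    obtain ⟨b, hb, hcop, hb8, hle, hc⟩ := odd_family a 3 2 ha hao (by norm_num) (by norm_num)
      (by norm_num) (Nat.coprime_two_right.mpr (Nat.odd_iff.mpr hao)) (by omega)
    refine ⟨b, hb, hcop, hb8, ?_, hc⟩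
    have h1 : b ≤ 81 * a ^ 2 := by
      have : (a * 3 ^ 2) ^ 2 = 81 * a ^ 2 := by ring
      omega
    have h2 : a ≤ (4 * 3 ^ k) ^ 2 := by
      have h3 : R + 1 ≤ 4 * 3 ^ k := by omega
      calc a ≤ (R + 1) ^ 2 := hR2.le
        _ ≤ (4 * 3 ^ k) ^ 2 := Nat.pow_le_pow_left h3 2
    calc b ^ 2 ≤ (81 * a ^ 2) ^ 2 := Nat.pow_le_pow_left h1 2
      _ = 81 ^ 2 * a * a ^ 3 := by ring
      _ ≤ 81 ^ 2 * (4 * 3 ^ k) ^ 2 * a ^ 3 :=
          Nat.mul_le_mul_right _ (Nat.mul_le_mul_left _ h2)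
      _ = (324 * 3 ^ k) ^ 2 * a ^ 3 := by ring
  · -- large `a`
    have hq : ∀ p ∈ a.primeFactors, ¬ p ∣ 1 := by
      intro p hp hd
      exact (Nat.prime_of_mem_primeFactors hp).one_lt.ne' (Nat.dvd_one.mp hd)
    have hP2 : ∀ p ∈ a.primeFactors, p ≠ 2 := by
      rintro p hp rfl
      have := Nat.dvd_of_mem_primeFactors hp
      omega
    obtain ⟨j, hj, hjp⟩ := exists_coprime_term a.primeFactors
      (fun p hp => Nat.prime_of_mem_primeFactors hp) hP2 1 (R / 2 - 3 ^ k + 1) hq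
    rw [← hk] at hj
    set σ := R / 2 - 3 ^ k + 1 + 1 * j with hσ
    have hσ1 : σ ≤ R / 2 := by omega
    have hσ2 : R / 2 + 1 ≤ σ + 3 ^ k := by omega
    have hσ0 : 0 < σ := by rw [hσ]; omega
    have hcop : Nat.Coprime a (2 * σ) := by
      apply Nat.Coprime.mul_right (Nat.coprime_two_right.mpr (Nat.odd_iff.mpr hao))
      apply Nat.coprime_of_dvd
      intro p hp hpa hps
      exact hjp p (Nat.mem_primeFactors.mpr ⟨hp, hpa, ha0.ne'⟩) hps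
    have hs2 : (2 * σ) ^ 2 < a * 1 ^ 2 := by
      have h1 : 2 * σ ≤ R := by omega
      have h2 : (2 * σ) ^ 2 ≤ R ^ 2 := Nat.pow_le_pow_left h1 2
      have h3 : (2 * σ) ^ 2 = 2 * (2 * σ ^ 2) := by ring
      omega
    obtain ⟨b, hb, hcopb, hb8, hle, hc⟩ := odd_family a 1 (2 * σ) ha hao (by norm_num) (by omega)
      (by omega) hcop hs2
    refine ⟨b, hb, hcopb, hb8, ?_, hc⟩
    -- b <= a^2 - s^4
    have h1 : R + 1 ≤ 2 * σ + 2 * 3 ^ k := by omega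
    have hR0 : 1 ≤ R := by omega
    have h2 : a ≤ (2 * σ) ^ 2 + 6 * 3 ^ k * R := by
      have h3 : 2 * σ ≤ R := by omega
      have h4 : (R + 1) ^ 2 ≤ (2 * σ) ^ 2 + 2 * 3 ^ k * (R + 1 + 2 * σ) := by
        have : (R + 1) ^ 2 ≤ (R + 1) * (2 * σ + 2 * 3 ^ k) := by
          rw [sq]; exact Nat.mul_le_mul_left _ h1
        have h5 : (R + 1) * (2 * σ) ≤ (2 * σ + 2 * 3 ^ k) * (2 * σ) := Nat.mul_le_mul_right _ h1
        nlinarith
      have h5 : R + 1 + 2 * σ ≤ 3 * R := by omega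
      have h6 : 2 * 3 ^ k * (R + 1 + 2 * σ) ≤ 2 * 3 ^ k * (3 * R) := Nat.mul_le_mul_left _ h5
      have h7 : 2 * 3 ^ k * (3 * R) = 6 * 3 ^ k * R := by ring
      omega
    have h3 : b ≤ 12 * 3 ^ k * R * a := by
      have e1 : (a * 1 ^ 2) ^ 2 = a * a := by ring
      rw [e1] at hle
      have h4 : a * a ≤ a * ((2 * σ) ^ 2 + 6 * 3 ^ k * R) := Nat.mul_le_mul_left _ h2
      have h5 : a * (2 * σ) ^ 2 ≤ ((2 * σ) ^ 2 + 6 * 3 ^ k * R) * (2 * σ) ^ 2 :=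
        Nat.mul_le_mul_right _ h2
      have h6 : (2 * σ) ^ 2 ≤ a := by omega
      have h7 : 6 * 3 ^ k * R * (2 * σ) ^ 2 ≤ 6 * 3 ^ k * R * a := Nat.mul_le_mul_left _ h6
      nlinarith
    calc b ^ 2 ≤ (12 * 3 ^ k * R * a) ^ 2 := Nat.pow_le_pow_left h3 2
      _ = (12 * 3 ^ k) ^ 2 * (R ^ 2 * a ^ 2) := by ring
      _ ≤ (12 * 3 ^ k) ^ 2 * (a * a ^ 2) :=
          Nat.mul_le_mul_left _ (Nat.mul_le_mul_right _ hR1)
      _ = (12 * 3 ^ k) ^ 2 * a ^ 3 := by ring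
      _ ≤ (324 * 3 ^ k) ^ 2 * a ^ 3 := by
          apply Nat.mul_le_mul_right
          apply Nat.pow_le_pow_left
          apply Nat.mul_le_mul_right
          norm_num

theorem odd_main (ε : ℝ) (hε : 0 < ε) : ∃ K : ℝ, ∀ a : ℕ, Squarefree a → a % 2 = 1 →
    ∃ b : ℕ, Squarefree b ∧ Nat.Coprime a b ∧ b % 8 = 1 ∧ (b : ℝ) ≤ K * (a : ℝ) ^ (3 / 2 + ε) ∧
      IsCongruent (a * b) := by
  obtain ⟨K, hK1, hK⟩ := pow_omega_le 3 (by norm_num) ε hε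
  refine ⟨324 * K, fun a ha hao => ?_⟩
  have ha0 : 0 < a := Nat.pos_of_ne_zero ha.ne_zero
  obtain ⟨b, hb, hcop, hb8, hle, hc⟩ := odd_nat a ha hao
  refine ⟨b, hb, hcop, hb8, ?_, hc⟩
  have har : (0 : ℝ) < a := by exact_mod_cast ha0
  have h1 : (b : ℝ) ^ 2 ≤ (324 * (3 : ℝ) ^ a.primeFactors.card) ^ 2 * (a : ℝ) ^ 3 := by
    exact_mod_cast hle
  have h2 : (a : ℝ) ^ 3 = ((a : ℝ) ^ (3 / 2 : ℝ)) ^ 2 := by
    rw [← Real.rpow_natCast ((a : ℝ) ^ (3 / 2 : ℝ)) 2, ← Real.rpow_mul har.le,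
      ← Real.rpow_natCast (a : ℝ) 3]
    norm_num
  rw [h2, ← mul_pow] at h1
  have h3 : (b : ℝ) ≤ 324 * (3 : ℝ) ^ a.primeFactors.card * (a : ℝ) ^ (3 / 2 : ℝ) :=
    (sq_le_sq₀ (by positivity) (by positivity)).mp h1
  have h4 := hK a ha0
  push_cast at h4
  calc (b : ℝ) ≤ 324 * (3 : ℝ) ^ a.primeFactors.card * (a : ℝ) ^ (3 / 2 : ℝ) := h3
    _ ≤ 324 * (K * (a : ℝ) ^ ε) * (a : ℝ) ^ (3 / 2 : ℝ) := by
        apply mul_le_mul_of_nonneg_right _ (by positivity)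
        apply mul_le_mul_of_nonneg_left h4 (by norm_num)
    _ = 324 * K * (a : ℝ) ^ (3 / 2 + ε) := by
        rw [Real.rpow_add har]; ring

end Pool.Agent.Work.MP_8efaaa_nt.G
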